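import Mathlib

/-!
# The Loomis-Whitney inequality for compact sets
-/

namespace Pool.Agent.FaceContents

open MeasureTheory Set

/-- Deleting the `i`-th coordinate. -/
def delCoord {m : ℕ} (i : Fin (m + 1)) (x : Fin (m + 1) → ℝ) : Fin m → ℝ :=
  fun j => x (i.succAbove j)

lemma continuous_delCoord {m : ℕ} (i : Fin (m + 1)) : Continuous (delCoord i) := by
  unfold delCoord
  fun_prop

/-- The slice of a set at first coordinate `t`. -/
def slice {m : ℕ} (K : Set (Fin (m + 1) → ℝ)) (t : ℝ) : Set (Fin m → ℝ) :=
  {y | (Fin.cons t y : Fin (m + 1) → ℝ) ∈ K}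

lemma slice_eq_image {m : ℕ} (K : Set (Fin (m + 1) → ℝ)) (t : ℝ) :
    slice K t = delCoord 0 '' (K ∩ {x | x 0 = t}) := by
  ext y
  constructor
  · intro hy
    refine ⟨Fin.cons t y, ⟨hy, by simp⟩, ?_⟩
    funext j
    simp [delCoord]
  · rintro ⟨x, ⟨hx, hx0⟩, rfl⟩
    have : (Fin.cons t (delCoord 0 x) : Fin (m + 1) → ℝ) = x := by
      funext j
      refine Fin.cases ?_ (fun j => ?_) j
      · simpa using hx0.symm
      · simp [delCoord]
    simp only [slice, mem_ofPred_eq, this]
    exact hx

lemma isCompact_slice {m : ℕ} {K : Set (Fin (m + 1) → ℝ)} (hK : IsCompact K) (t : ℝ) :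
    IsCompact (slice K t) := by
  rw [slice_eq_image]
  apply IsCompact.image _ (continuous_delCoord 0)
  apply hK.inter_right
  exact isClosed_eq (continuous_apply 0) continuous_const

lemma prodMk_preimage {m : ℕ} (K : Set (Fin (m + 1) → ℝ)) (t : ℝ) :
    Prod.mk t ⁻¹' ((MeasurableEquiv.piFinSuccAbove (fun _ : Fin (m + 1) => ℝ) 0).symm ⁻¹' K) =
      slice K t := by
  ext y
  simp only [mem_preimage, slice, mem_ofPred_eq]
  have : (MeasurableEquiv.piFinSuccAbove (fun _ : Fin (m + 1) => ℝ) 0).symm (t, y) =
      (Fin.cons t y : Fin (m + 1) → ℝ) := by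
    exact Fin.insertNth_zero' t y
  rw [this]

lemma measurable_volume_slice {m : ℕ} {K : Set (Fin (m + 1) → ℝ)} (hK : MeasurableSet K) :
    Measurable (fun t => volume (slice K t)) := by
  have h := measurable_measure_prodMk_left (ν := (volume : Measure (Fin m → ℝ)))
    ((MeasurableEquiv.piFinSuccAbove (fun _ : Fin (m + 1) => ℝ) 0).symm.measurable hK)
  have h2 : (fun t => volume (slice K t)) = fun t => volume (Prod.mk t ⁻¹'
      ((MeasurableEquiv.piFinSuccAbove (fun _ : Fin (m + 1) => ℝ) 0).symm ⁻¹' K)) := by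
    funext t
    rw [prodMk_preimage]
  rw [h2]
  exact h

lemma volume_eq_lintegral_slice {m : ℕ} {K : Set (Fin (m + 1) → ℝ)} (hK : MeasurableSet K) :
    volume K = ∫⁻ t, volume (slice K t) := by
  have h1 := (volume_preserving_piFinSuccAbove (fun _ : Fin (m + 1) => ℝ) 0).symm
    (MeasurableEquiv.piFinSuccAbove (fun _ : Fin (m + 1) => ℝ) 0)
  rw [← h1.measure_preimage hK.nullMeasurableSet]
  have h2 : MeasurableSet
      ((MeasurableEquiv.piFinSuccAbove (fun _ : Fin (m + 1) => ℝ) 0).symm ⁻¹' K) :=
    (MeasurableEquiv.piFinSuccAbove (fun _ : Fin (m + 1) => ℝ) 0).symm.measurable hK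
  have h3 := Measure.prod_apply (μ := (volume : Measure ℝ)) (ν := (volume : Measure (Fin m → ℝ))) h2
  refine h3.trans ?_
  refine lintegral_congr fun t => ?_
  rw [prodMk_preimage]

lemma delCoord_slice_subset {m : ℕ} (K : Set (Fin (m + 2) → ℝ)) (t : ℝ) (j : Fin (m + 1)) :
    delCoord j '' slice K t ⊆ slice (delCoord j.succ '' K) t := by
  rintro z ⟨y, hy, rfl⟩
  refine ⟨Fin.cons t y, hy, ?_⟩
  funext l
  refine Fin.cases ?_ (fun l => ?_) l
  · simp [delCoord]
  · simp [delCoord]

/-- **Loomis-Whitney inequality** for compact nonempty sets. -/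
theorem loomis_whitney (m : ℕ) : ∀ (K : Set (Fin (m + 1) → ℝ)), IsCompact K → K.Nonempty →
    volume K ^ m ≤ ∏ i : Fin (m + 1), volume (delCoord i '' K) := by
  induction m with
  | zero =>
    intro K _ hne
    have h : delCoord (0 : Fin 1) '' K = Set.univ := by
      rw [Set.eq_univ_iff_forall]
      intro z
      obtain ⟨x, hx⟩ := hne
      exact ⟨x, hx, Subsingleton.elim _ _⟩
    have h1 : volume (Set.univ : Set (Fin 0 → ℝ)) = 1 := by
      rw [volume_pi, Measure.pi_univ]; simp
    simp [h, h1]
  | succ m IH =>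
    intro K hK hne
    set p : ℝ := 1 / ((m : ℝ) + 1) with hp
    have hppos : 0 < p := by positivity
    set g : Fin (m + 1) → ℝ → ENNReal := fun j t => volume (slice (delCoord j.succ '' K) t) with hg
    have hcomp : ∀ i, IsCompact (delCoord i '' K) := fun i => hK.image (continuous_delCoord i)
    have hgm : ∀ j, Measurable (g j) := fun j =>
      measurable_volume_slice (hcomp j.succ).measurableSet
    have hgint : ∀ j, ∫⁻ t, g j t = volume (delCoord j.succ '' K) := fun j =>
      (volume_eq_lintegral_slice (hcomp j.succ).measurableSet).symm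
    -- pointwise bound
    have hpt : ∀ t, volume (slice K t) ≤ volume (delCoord 0 '' K) ^ p * ∏ j, g j t ^ p := by
      intro t
      rcases (slice K t).eq_empty_or_nonempty with he | hne'
      · rw [he]; simp
      have h1 := IH (slice K t) (isCompact_slice hK t) hne'
      have h2 : ∏ j : Fin (m + 1), volume (delCoord j '' slice K t) ≤ ∏ j, g j t :=
        Finset.prod_le_prod' fun j _ => measure_mono (delCoord_slice_subset K t j)
      have h3 : volume (slice K t) ≤ volume (delCoord 0 '' K) := by
        rw [slice_eq_image]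
        exact measure_mono (image_mono inter_subset_left)
      have h4 : volume (slice K t) ^ (m + 1) ≤ volume (delCoord 0 '' K) * ∏ j, g j t := by
        rw [pow_succ, mul_comm]
        exact mul_le_mul' h3 (h1.trans h2)
      have h5 : volume (slice K t) = (volume (slice K t) ^ (m + 1)) ^ p := by
        rw [← ENNReal.rpow_natCast, ← ENNReal.rpow_mul, hp]
        have : ((m + 1 : ℕ) : ℝ) * (1 / ((m : ℝ) + 1)) = 1 := by
          push_cast
          field_simp
        rw [this, ENNReal.rpow_one]
      rw [h5]
      refine (ENNReal.rpow_le_rpow h4 hppos.le).trans ?_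
      rw [ENNReal.mul_rpow_of_nonneg _ _ hppos.le, ENNReal.prod_rpow_of_nonneg hppos.le]
    -- integrate
    have h6 : volume K ≤ volume (delCoord 0 '' K) ^ p *
        ∏ j : Fin (m + 1), volume (delCoord j.succ '' K) ^ p := by
      rw [volume_eq_lintegral_slice hK.measurableSet]
      refine (lintegral_mono hpt).trans ?_
      rw [lintegral_const_mul _ (by
        apply Finset.measurable_prod
        intro j _
        exact (hgm j).pow_const p)]
      gcongr
      have h7 := ENNReal.lintegral_prod_norm_pow_le (μ := (volume : Measure ℝ))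
        (Finset.univ : Finset (Fin (m + 1))) (f := g) (fun j _ => (hgm j).aemeasurable)
        (p := fun _ => p) (by simp [hp]; field_simp) (fun _ _ => hppos.le)
      refine h7.trans (le_of_eq ?_)
      refine Finset.prod_congr rfl fun j _ => ?_
      rw [hgint]
    calc volume K ^ (m + 1) ≤ (volume (delCoord 0 '' K) ^ p *
        ∏ j : Fin (m + 1), volume (delCoord j.succ '' K) ^ p) ^ (m + 1) := by gcongr
      _ = ∏ i : Fin (m + 2), volume (delCoord i '' K) := by
        rw [Fin.prod_univ_succ (fun i => volume (delCoord i '' K)), mul_pow, ← Finset.prod_pow]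
        have h8 : ∀ y : ENNReal, (y ^ p) ^ (m + 1) = y := by
          intro y
          rw [← ENNReal.rpow_natCast, ← ENNReal.rpow_mul, hp]
          have : 1 / ((m : ℝ) + 1) * ((m + 1 : ℕ) : ℝ) = 1 := by
            push_cast
            field_simp
          rw [this, ENNReal.rpow_one]
        simp_rw [h8]

end Pool.Agent.FaceContents
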