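import Mathlib
import Pool.Agent.FaceContents.LoomisWhitney

/-!
# Euclidean coordinates on a face and Hausdorff measure
-/

namespace Pool.Agent.FaceContents

open Module Set Filter Topology MeasureTheory MeasureTheory.Measure
open scoped ENNReal RealInnerProductSpace

variable {E : Type*} [NormedAddCommGroup E] [InnerProductSpace ℝ E]

/-- The coordinates of a vector relative to `u`. -/
noncomputable def coordL {n : ℕ} (u : Fin n → E) : E →L[ℝ] (Fin n → ℝ) :=
  ContinuousLinearMap.pi (fun i => innerSL ℝ (u i))

lemma coordL_apply {n : ℕ} (u : Fin n → E) (x : E) (i : Fin n) : coordL u x i = ⟪u i, x⟫ := rfl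

lemma delCoord_coordL {m : ℕ} (u : Fin (m + 1) → E) (i : Fin (m + 1)) (x : E) :
    delCoord i (coordL u x) = coordL (fun j => u (i.succAbove j)) x := rfl

/-- The coordinates as an element of Euclidean space. -/
noncomputable def coordE {n : ℕ} (u : Fin n → E) (x : E) : EuclideanSpace ℝ (Fin n) :=
  WithLp.toLp 2 (coordL u x)

lemma volume_coordL_image {n : ℕ} (u : Fin n → E) (F : Set E) :
    volume (coordL u '' F) = volume (coordE u '' F) := by
  have h := (EuclideanSpace.volume_preserving_symm_measurableEquiv_toLp (Fin n)).measure_preimage_equiv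
    (coordL u '' F)
  rw [← h]
  congr 1
  ext y
  constructor
  · rintro ⟨x, hx, hxy⟩
    refine ⟨x, hx, ?_⟩
    change coordL u x = WithLp.ofLp y at hxy
    unfold coordE
    rw [hxy]
  · rintro ⟨x, hx, rfl⟩
    exact ⟨x, hx, rfl⟩

lemma lipschitz_coordE {n : ℕ} {u : Fin n → E} (hu : Orthonormal ℝ u) :
    LipschitzWith 1 (coordE u) := by
  apply LipschitzWith.of_dist_le_mul
  intro x y
  rw [NNReal.coe_one, one_mul, dist_eq_norm, dist_eq_norm]
  have h1 : coordE u x - coordE u y = coordE u (x - y) := by
    unfold coordE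
    rw [map_sub]
    rfl
  rw [h1, ← abs_of_nonneg (norm_nonneg (coordE u (x - y))), ← abs_of_nonneg (norm_nonneg (x - y)),
    ← sq_le_sq, EuclideanSpace.norm_sq_eq]
  exact hu.sum_inner_products_le (x - y)

variable [MeasurableSpace E] [BorelSpace E]

/-- Orthogonal projections do not increase Hausdorff measure. -/
lemma volume_coordL_le {n : ℕ} {u : Fin n → E} (hu : Orthonormal ℝ u) (G : Set E) :
    volume (coordL u '' G) ≤ μHE[n] G := by
  rw [volume_coordL_image, ← EuclideanSpace.euclideanHausdorffMeasure_eq_volume,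
    euclideanHausdorffMeasure_def, euclideanHausdorffMeasure_def, Measure.smul_apply,
    Measure.smul_apply]
  have h := (lipschitz_coordE hu).hausdorffMeasure_image_le (d := n) (Nat.cast_nonneg n) G
  rw [ENNReal.coe_one, ENNReal.one_rpow, one_mul] at h
  rw [ENNReal.smul_def, ENNReal.smul_def, smul_eq_mul, smul_eq_mul]
  gcongr

/-- Chart of an affine subspace. -/
noncomputable def chart {n : ℕ} (u : Fin n → E) (c : E) (y : EuclideanSpace ℝ (Fin n)) : E :=
  c + ∑ i, y i • u i

omit [MeasurableSpace E] [BorelSpace E] in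
lemma isometry_chart {n : ℕ} {u : Fin n → E} (hu : Orthonormal ℝ u) (c : E) :
    Isometry (chart u c) := by
  apply Isometry.of_dist_eq
  intro x y
  rw [dist_eq_norm, dist_eq_norm]
  have h1 : chart u c x - chart u c y = ∑ i, (x - y) i • u i := by
    unfold chart
    rw [add_sub_add_left_eq_sub, ← Finset.sum_sub_distrib]
    refine Finset.sum_congr rfl fun i _ => ?_
    rw [← sub_smul]
    rfl
  rw [h1, ← abs_of_nonneg (norm_nonneg (∑ i, (x - y) i • u i)),
    ← abs_of_nonneg (norm_nonneg (x - y)), ← sq_eq_sq_iff_abs_eq_abs, EuclideanSpace.norm_sq_eq,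
    ← real_inner_self_eq_norm_sq, hu.inner_sum]
  refine Finset.sum_congr rfl fun i _ => ?_
  simp [sq]

/-- On an affine subspace with orthonormal coordinates, volume is Hausdorff measure. -/
lemma volume_coordL_eq {n : ℕ} {u : Fin n → E} (hu : Orthonormal ℝ u) (F : Set E) (c : E)
    (hF : ∀ x ∈ F, x = c + ∑ i, ⟪u i, x⟫ • u i) :
    volume (coordL u '' F) = μHE[n] F := by
  have h1 : chart u c '' (coordE u '' F) = F := by
    ext x
    constructor
    · rintro ⟨_, ⟨z, hz, rfl⟩, rfl⟩
      have : chart u c (coordE u z) = z := (hF z hz).symm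
      rwa [this]
    · intro hx
      exact ⟨_, ⟨x, hx, rfl⟩, (hF x hx).symm⟩
  calc volume (coordL u '' F) = volume (coordE u '' F) := volume_coordL_image u F
    _ = μHE[n] (coordE u '' F) := by rw [EuclideanSpace.euclideanHausdorffMeasure_eq_volume]
    _ = μHE[n] (chart u c '' (coordE u '' F)) :=
        ((isometry_chart hu c).euclideanHausdorffMeasure_image _).symm
    _ = μHE[n] F := by rw [h1]

end Pool.Agent.FaceContents
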