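import Pool.Agent.FaceContents.PolyLemma

/-!
# The counting lemma of the polynomial method with handicaps
-/

namespace Pool.Agent.FaceContents

open MvPolynomial

variable {k : ℕ}

/-- If all iterated derivatives of length `r` along a basis vanish at a point, then all iterated
derivatives of length `r` vanish there. -/
lemma listD_eq_zero_of_basis (y : Fin k → ℝ) (e : Fin k → (Fin k → ℝ))
    (he : LinearIndependent ℝ e) (g : MvPolynomial (Fin k) ℝ) (r : ℕ)
    (H : ∀ l' : List (Fin k), l'.length = r → eval y (listD (l'.map e) g) = 0)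
    (l : List (Fin k → ℝ)) (hl : l.length = r) : eval y (listD l g) = 0 := by
  have key : ∀ (l1 : List (Fin k → ℝ)) (l' : List (Fin k)), l1.length + l'.length = r →
      eval y (listD (l1 ++ l'.map e) g) = 0 := by
    intro l1
    induction l1 using List.reverseRecOn with
    | nil => intro l' h; simpa using H l' (by simpa using h)
    | append_singleton l1 v ih =>
      intro l' h
      rw [List.append_assoc, listD_append, List.singleton_append, listD_cons]
      have h' : l1.length + (l'.length + 1) = r := by simp at h; omega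
      clear h
      have hv : v ∈ Submodule.span ℝ (Set.range e) := by
        rw [he.span_eq_top_of_card_eq_finrank' (by simp)]
        trivial
      induction hv using Submodule.span_induction with
      | mem w hw =>
        obtain ⟨i, rfl⟩ := hw
        have := ih (i :: l') (by simpa using h')
        rw [listD_append, List.map_cons, listD_cons] at this
        exact this
      | zero => rw [dirD_zero_left, listD_zero, map_zero]
      | add u w _ _ hu hw => rw [dirD_add_left, listD_add, map_add, hu, hw, add_zero]
      | smul c u _ hu => rw [dirD_smul_left, listD_smul, smul_eval, hu, mul_zero]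
  simpa using key l [] (by simpa using hl)

/-- If all derivatives of a polynomial vanish at a point, the polynomial is zero. -/
lemma eq_zero_of_all_listD (y : Fin k → ℝ) (g : MvPolynomial (Fin k) ℝ)
    (H : ∀ l : List (Fin k → ℝ), eval y (listD l g) = 0) : g = 0 := by
  apply MvPolynomial.funext
  intro z
  rw [map_zero]
  have h1 : lineR y (z - y) g = 0 := by
    apply eq_zero_of_many_zeros (lineR y (z - y) g) g.totalDegree
      (natDegree_lineR_le _ _ _ le_rfl) ({()} : Finset Unit) (fun _ => 0) (by simp)
      (fun _ => g.totalDegree + 1) (by simp)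
    intro c _ m _
    rw [iterate_derivative_lineR, eval_lineR]
    simpa using H _
  have h2 := eval_lineR y (z - y) g 1
  rw [h1] at h2
  simpa using h2.symm

/-- Propagation of vanishing: a polynomial of degree at most `n` satisfying the box conditions
vanishes to high order everywhere. -/
lemma vanish_all {ι : Type*} (X : Finset ι) (x : ι → Fin k → ℝ) (hinj : Set.InjOn x X)
    (e : ι → Fin k → (Fin k → ℝ)) (he : ∀ a ∈ X, LinearIndependent ℝ (e a)) (α : ι → ℤ)
    (Ln : ι → Fin k → Finset ι) (t : ι → Fin k → ℤ) (n : ℕ)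
    (hLX : ∀ a ∈ X, ∀ i, Ln a i ⊆ X)
    (hline : ∀ a ∈ X, ∀ i, ∀ c ∈ Ln a i, ∃ s : ℝ, x c = x a + s • e a i)
    (hsum : ∀ a ∈ X, ∀ i, n + 1 ≤ ∑ c ∈ Ln a i, (t a i + α c).toNat)
    (g : MvPolynomial (Fin k) ℝ) (hg : g.totalDegree ≤ n)
    (hbox : ∀ a ∈ X, ∀ l' : List (Fin k), (∀ i, l'.count i < (t a i + α a).toNat) →
      eval (x a) (listD (l'.map (e a)) g) = 0) :
    ∀ τ : ℤ, ∀ a ∈ X, ∀ l : List (Fin k → ℝ), (l.length : ℤ) < τ + α a →
      eval (x a) (listD l g) = 0 := by
  classical
  obtain ⟨τ₀, hτ₀⟩ : ∃ τ₀ : ℤ, ∀ a ∈ X, τ₀ + α a ≤ 0 := by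
    refine ⟨-∑ a ∈ X, |α a|, fun a ha => ?_⟩
    have h1 : |α a| ≤ ∑ a ∈ X, |α a| :=
      Finset.single_le_sum (f := fun a => |α a|) (fun _ _ => abs_nonneg _) ha
    have h2 := le_abs_self (α a)
    linarith
  intro τ
  rcases le_total τ τ₀ with hle | hle
  · intro a ha l hl
    have := hτ₀ a ha
    omega
  induction τ, hle using Int.leInduction with
  | base =>
    intro a ha l hl
    have := hτ₀ a ha
    omega
  | succ τ _ IH =>
    intro a ha l hl
    by_cases hlt : (l.length : ℤ) < τ + α a
    · exact IH a ha l hlt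
    have hlen : (l.length : ℤ) = τ + α a := by omega
    refine listD_eq_zero_of_basis (x a) (e a) (he a ha) g l.length ?_ l rfl
    intro l' hl'
    by_cases hall : ∀ i, l'.count i < (t a i + α a).toNat
    · exact hbox a ha l' hall
    push Not at hall
    obtain ⟨i, hi⟩ := hall
    -- split the list
    set rest := l'.filter (fun j => !(decide (j = i))) with hrest
    have hperm : l'.Perm (List.replicate (l'.count i) i ++ rest) := by
      have h1 := List.filter_append_perm (fun j => decide (j = i)) l'
      have h2 : l'.filter (fun j => decide (j = i)) = List.replicate (l'.count i) i := by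
        exact List.filter_eq i
      rw [h2] at h1
      exact h1.symm
    have hcount : l'.count i + rest.length = l'.length := by
      have := hperm.length_eq
      simp at this
      omega
    have hmap : (l'.map (e a)).Perm
        (List.replicate (l'.count i) (e a i) ++ rest.map (e a)) := by
      have := hperm.map (e a)
      simpa using this
    rw [listD_perm hmap, listD_append]
    -- the univariate polynomial
    have hh : lineR (x a) (e a i) (listD (rest.map (e a)) g) = 0 := by
      choose! s hs using hline a ha i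
      have hei : e a i ≠ 0 := (he a ha).ne_zero i
      apply eq_zero_of_many_zeros _ n
        (natDegree_lineR_le _ _ _ ((totalDegree_listD_le _ _).trans hg)) (Ln a i) s ?_
        (fun c => (t a i + α c).toNat) (hsum a ha i) ?_
      · intro c hc c' hc' hcc
        apply hinj (hLX a ha i hc) (hLX a ha i hc')
        rw [hs c hc, hs c' hc', hcc]
      · intro c hc m hm
        rw [iterate_derivative_lineR, eval_lineR, ← hs c hc, ← listD_append]
        apply IH c (hLX a ha i hc)
        simp only [List.length_append, List.length_replicate, List.length_map]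
        push_cast
        have h1 : (t a i + α a) ≤ l'.count i := by
          have := Int.self_le_toNat (t a i + α a)
          omega
        have h2 : (m : ℤ) < t a i + α c := by omega
        have h3 : (l'.count i : ℤ) + rest.length = τ + α a := by
          rw [← hlen, ← hl']; exact_mod_cast hcount
        omega
    have h4 := iterate_derivative_lineR (x a) (e a i) (listD (rest.map (e a)) g) (l'.count i)
    have h5 := eval_lineR (x a) (e a i)
      (listD (List.replicate (l'.count i) (e a i)) (listD (rest.map (e a)) g)) 0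
    rw [← h4, hh] at h5
    simpa using h5.symm

/-- The polynomial with given coefficients on the box of exponents at most `m`. -/
noncomputable def boxPoly (k m : ℕ) : ((Fin k → Fin (m + 1)) → ℝ) →ₗ[ℝ] MvPolynomial (Fin k) ℝ where
  toFun c := ∑ γ, monomial (Finsupp.equivFunOnFinite.symm (fun i => (γ i : ℕ))) (c γ)
  map_add' := by intro c d; simp [Finset.sum_add_distrib]
  map_smul' := by intro c d; simp [Finset.smul_sum, smul_monomial]

lemma boxPoly_apply (k m : ℕ) (c : (Fin k → Fin (m + 1)) → ℝ) :
    boxPoly k m c = ∑ γ, monomial (Finsupp.equivFunOnFinite.symm (fun i => (γ i : ℕ))) (c γ) := rfl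

lemma exponent_injective (k m : ℕ) : Function.Injective
    (fun γ : Fin k → Fin (m + 1) => Finsupp.equivFunOnFinite.symm (fun i => (γ i : ℕ))) := by
  intro γ δ h
  have h1 : (fun i => (γ i : ℕ)) = fun i => (δ i : ℕ) := Finsupp.equivFunOnFinite.symm.injective h
  funext i
  exact Fin.ext (congrFun h1 i)

lemma boxPoly_coeff (k m : ℕ) (c : (Fin k → Fin (m + 1)) → ℝ) (γ : Fin k → Fin (m + 1)) :
    coeff (Finsupp.equivFunOnFinite.symm (fun i => (γ i : ℕ))) (boxPoly k m c) = c γ := by
  classical
  rw [boxPoly_apply, coeff_sum, Finset.sum_eq_single γ]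
  · simp
  · intro δ _ hδ
    rw [coeff_monomial, if_neg]
    intro h
    exact hδ (exponent_injective k m h)
  · simp

lemma boxPoly_eq_zero (k m : ℕ) (c : (Fin k → Fin (m + 1)) → ℝ) (h : boxPoly k m c = 0) :
    c = 0 := by
  funext γ
  rw [← boxPoly_coeff k m c γ, h]
  simp

lemma boxPoly_totalDegree (k m : ℕ) (c : (Fin k → Fin (m + 1)) → ℝ) :
    (boxPoly k m c).totalDegree ≤ k * m := by
  rw [boxPoly_apply]
  refine (totalDegree_finsetSum _ _).trans ?_
  apply Finset.sup_le
  intro γ _
  refine (totalDegree_monomial_le _ _).trans ?_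
  rw [Finsupp.sum_fintype _ _ (by simp)]
  simp only [Finsupp.equivFunOnFinite_symm_apply_apply]
  calc ∑ i, (γ i : ℕ) ≤ ∑ _i : Fin k, m := Finset.sum_le_sum fun i _ => by omega
    _ = k * m := by simp

/-- The list with `γ i` copies of `i`. -/
def multiList (γ : Fin k → ℕ) : List (Fin k) :=
  (List.finRange k).flatMap (fun i => List.replicate (γ i) i)

lemma count_multiList (γ : Fin k → ℕ) (i : Fin k) : (multiList γ).count i = γ i := by
  unfold multiList
  rw [List.count_flatMap]
  have h1 : (List.map (List.count i ∘ fun j => List.replicate (γ j) j) (List.finRange k)).sum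
      = ∑ j, (if j = i then γ j else 0) := by
    rw [← List.ofFn_eq_map, List.sum_ofFn]
    refine Finset.sum_congr rfl fun j _ => ?_
    simp [List.count_replicate]
  rw [h1]
  simp

/-- **Counting lemma.** -/
theorem counting {ι : Type*} (X : Finset ι) (hX : X.Nonempty) (x : ι → Fin k → ℝ)
    (hinj : Set.InjOn x X)
    (e : ι → Fin k → (Fin k → ℝ)) (he : ∀ a ∈ X, LinearIndependent ℝ (e a)) (α : ι → ℤ)
    (Ln : ι → Fin k → Finset ι) (t : ι → Fin k → ℤ) (m : ℕ)
    (hLX : ∀ a ∈ X, ∀ i, Ln a i ⊆ X)
    (hline : ∀ a ∈ X, ∀ i, ∀ c ∈ Ln a i, ∃ s : ℝ, x c = x a + s • e a i)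
    (hsum : ∀ a ∈ X, ∀ i, k * m + 1 ≤ ∑ c ∈ Ln a i, (t a i + α c).toNat) :
    (m + 1) ^ k ≤ ∑ a ∈ X, ∏ i, (t a i + α a).toNat := by
  classical
  by_contra hcon
  push Not at hcon
  -- the evaluation map
  let Φ : ((Fin k → Fin (m + 1)) → ℝ) →ₗ[ℝ]
      ((a : X) → ((i : Fin k) → Fin ((t a i + α a).toNat)) → ℝ) :=
    LinearMap.pi fun a => LinearMap.pi fun γ =>
      (MvPolynomial.aeval (x a)).toLinearMap ∘ₗ
        (listDL ((multiList (fun i => (γ i : ℕ))).map (e a))) ∘ₗ boxPoly k m
  have hker : LinearMap.ker Φ ≠ ⊥ := by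
    apply LinearMap.ker_ne_bot_of_finrank_lt
    rw [Module.finrank_pi_fintype, Module.finrank_fintype_fun_eq_card]
    simp only [Module.finrank_fintype_fun_eq_card, Fintype.card_pi, Fintype.card_fin,
      Finset.prod_const, Finset.card_univ]
    rw [Finset.sum_coe_sort X (fun a => ∏ i, (t a i + α a).toNat)]
    exact hcon
  obtain ⟨c, hc, hc0⟩ := (Submodule.ne_bot_iff _).1 hker
  have hg0 : boxPoly k m c ≠ 0 := fun h => hc0 (boxPoly_eq_zero k m c h)
  apply hg0
  obtain ⟨a₀, ha₀⟩ := hX
  apply eq_zero_of_all_listD (x a₀)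
  intro l
  refine vanish_all X x hinj e he α Ln t (k * m) hLX hline hsum (boxPoly k m c)
    (boxPoly_totalDegree k m c) ?_ (l.length + 1 - α a₀) a₀ ha₀ l (by omega)
  intro a ha l' hl'
  have h1 := congrFun (congrFun (LinearMap.mem_ker.1 hc) ⟨a, ha⟩)
    (fun i => ⟨l'.count i, hl' i⟩)
  have h2 : MvPolynomial.eval (x a) (listD ((multiList (fun i => l'.count i)).map (e a))
      (boxPoly k m c)) = 0 := by
    have h3 : Φ c ⟨a, ha⟩ (fun i => ⟨l'.count i, hl' i⟩) =
        MvPolynomial.aeval (x a) (listD ((multiList (fun i => l'.count i)).map (e a))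
      (boxPoly k m c)) := rfl
    rw [h3] at h1
    rw [MvPolynomial.aeval_eq_eval] at h1
    exact h1
  rw [← h2]
  congr 1
  apply listD_perm
  apply List.Perm.map
  rw [List.perm_iff_count]
  intro i
  rw [count_multiList]

end Pool.Agent.FaceContents
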