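import Mathlib

/-!
# Exposed faces of polytopes
-/

namespace Pool.Agent.FaceContents

open Module Finset Set Filter Topology

variable {E : Type*} [NormedAddCommGroup E] [NormedSpace ℝ E]

section
open Classical

/-- The points of `S` maximising `l`. -/
noncomputable def maxOn (S : Finset E) (l : E →L[ℝ] ℝ) : Finset E :=
  S.filter (fun s => ∀ t ∈ S, l t ≤ l s)

lemma mem_maxOn {S : Finset E} {l : E →L[ℝ] ℝ} {s : E} :
    s ∈ maxOn S l ↔ s ∈ S ∧ ∀ t ∈ S, l t ≤ l s := by
  simp [maxOn]

lemma maxOn_nonempty {S : Finset E} (hS : S.Nonempty) (l : E →L[ℝ] ℝ) : (maxOn S l).Nonempty := by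
  obtain ⟨s, hs, h⟩ := Finset.exists_max_image S l hS
  exact ⟨s, mem_maxOn.2 ⟨hs, h⟩⟩

lemma le_of_mem_convexHull {S : Finset E} {l : E →L[ℝ] ℝ} {M : ℝ} (h : ∀ t ∈ S, l t ≤ M)
    {y : E} (hy : y ∈ convexHull ℝ (S : Set E)) : l y ≤ M := by
  have : convexHull ℝ (S : Set E) ⊆ {x | l x ≤ M} := by
    apply convexHull_min
    · intro t ht
      exact h t ht
    · exact convex_halfSpace_le l.toLinearMap.isLinear M
  exact this hy

/-- The exposed set of a polytope is the hull of the maximising points. -/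
lemma exposed_eq (S : Finset E) (l : E →L[ℝ] ℝ) :
    {x | x ∈ convexHull ℝ (S : Set E) ∧ ∀ y ∈ convexHull ℝ (S : Set E), l y ≤ l x} =
      convexHull ℝ (maxOn S l : Set E) := by
  apply Set.Subset.antisymm
  · rintro x ⟨hx, hmax⟩
    have hmax' : ∀ t ∈ S, l t ≤ l x := fun t ht => hmax t (subset_convexHull ℝ _ ht)
    rw [Finset.mem_convexHull'] at hx
    obtain ⟨w, hw0, hw1, hwx⟩ := hx
    have hsum : ∑ y ∈ S, w y * (l x - l y) = 0 := by
      have h1 : l x = ∑ y ∈ S, w y * l y := by
        conv_lhs => rw [← hwx]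
        rw [map_sum]
        simp
      simp_rw [mul_sub]
      rw [Finset.sum_sub_distrib, ← Finset.sum_mul, hw1, ← h1]
      ring
    have hz : ∀ y ∈ S, w y * (l x - l y) = 0 :=
      (Finset.sum_eq_zero_iff_of_nonneg (fun y hy =>
        mul_nonneg (hw0 y hy) (sub_nonneg.2 (hmax' y hy)))).1 hsum
    have hz' : ∀ y ∈ S, y ∉ maxOn S l → w y = 0 := by
      intro y hy hy'
      rcases mul_eq_zero.1 (hz y hy) with h | h
      · exact h
      · exfalso
        apply hy'
        rw [mem_maxOn]
        refine ⟨hy, fun t ht => ?_⟩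
        have := hmax' t ht
        linarith
    have hsub : maxOn S l ⊆ S := Finset.filter_subset _ _
    rw [Finset.mem_convexHull']
    refine ⟨w, fun y hy => hw0 y (hsub hy), ?_, ?_⟩
    · rw [← hw1]
      exact Finset.sum_subset hsub (fun y hy hy' => hz' y hy hy')
    · rw [← hwx]
      exact Finset.sum_subset hsub (fun y hy hy' => by rw [hz' y hy hy', zero_smul])
  · have hconv : Convex ℝ {x | x ∈ convexHull ℝ (S : Set E) ∧
        ∀ y ∈ convexHull ℝ (S : Set E), l y ≤ l x} := by
      intro x hx y hy a b ha hb hab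
      refine ⟨convex_convexHull ℝ _ hx.1 hy.1 ha hb hab, fun z hz => ?_⟩
      have h1 := hx.2 z hz
      have h2 := hy.2 z hz
      rw [map_add, map_smul, map_smul, smul_eq_mul, smul_eq_mul]
      have : l z = a * l z + b * l z := by rw [← add_mul, hab, one_mul]
      rw [this]
      exact add_le_add (mul_le_mul_of_nonneg_left h1 ha) (mul_le_mul_of_nonneg_left h2 hb)
    apply convexHull_min _ hconv
    intro s hs
    have hs' := mem_maxOn.1 (Finset.mem_coe.1 hs)
    exact ⟨subset_convexHull ℝ _ hs'.1, fun y hy => le_of_mem_convexHull hs'.2 hy⟩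

/-- A nonempty exposed face of a polytope. -/
def Face (P F : Set E) : Prop := F.Nonempty ∧ IsExposed ℝ P F

lemma Face.exists_hull {S : Finset E} {F : Set E} (hF : Face (convexHull ℝ (S : Set E)) F) :
    ∃ l : E →L[ℝ] ℝ, F = convexHull ℝ (maxOn S l : Set E) := by
  obtain ⟨l, hl⟩ := hF.2 hF.1
  exact ⟨l, by rw [← exposed_eq, hl]⟩

lemma face_hull {S : Finset E} (hS : S.Nonempty) (l : E →L[ℝ] ℝ) :
    Face (convexHull ℝ (S : Set E)) (convexHull ℝ (maxOn S l : Set E)) := by
  refine ⟨?_, fun _ => ⟨l, (exposed_eq S l).symm⟩⟩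
  obtain ⟨s, hs⟩ := maxOn_nonempty hS l
  exact ⟨s, subset_convexHull ℝ _ hs⟩

lemma Face.subset {P F : Set E} (hF : Face P F) : F ⊆ P := hF.2.subset

lemma finite_faces (S : Finset E) : {F : Set E | Face (convexHull ℝ (S : Set E)) F}.Finite := by
  apply Set.Finite.subset ((S.powerset : Set (Finset E)).toFinite.image
    (fun T : Finset E => convexHull ℝ (T : Set E)))
  intro F hF
  obtain ⟨l, hl⟩ := Face.exists_hull hF
  refine ⟨maxOn S l, ?_, hl.symm⟩
  rw [Finset.mem_coe, Finset.mem_powerset]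
  exact fun x hx => (mem_maxOn.1 hx).1

/-- Faces of faces are faces. -/
lemma Face.trans {S : Finset E} {F G : Set E} (hF : Face (convexHull ℝ (S : Set E)) F)
    (hG : Face F G) : Face (convexHull ℝ (S : Set E)) G := by
  obtain ⟨l, rfl⟩ := Face.exists_hull hF
  obtain ⟨l', rfl⟩ := Face.exists_hull hG
  have hne : S.Nonempty := by
    obtain ⟨x, hx⟩ := hF.1
    obtain ⟨s, hs⟩ := convexHull_nonempty_iff.1 ⟨x, hx⟩
    exact ⟨s, (mem_maxOn.1 (Finset.mem_coe.1 hs)).1⟩
  have key : ∀ᶠ ε : ℝ in 𝓝[>] 0, ∀ s ∈ S, s ∉ maxOn S l → ∀ t ∈ maxOn S l,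
      l s + ε * l' s < l t + ε * l' t := by
    rw [Filter.eventually_all_finset]
    intro s hs
    by_cases hs' : s ∈ maxOn S l
    · exact Filter.Eventually.of_forall fun ε h => absurd hs' h
    · have : ∀ᶠ ε : ℝ in 𝓝[>] 0, ∀ t ∈ maxOn S l, l s + ε * l' s < l t + ε * l' t := by
        rw [Filter.eventually_all_finset]
        intro t ht
        have hlt : l s < l t := by
          by_contra hcon
          apply hs'
          rw [mem_maxOn]
          refine ⟨hs, fun r hr => ?_⟩
          exact ((mem_maxOn.1 ht).2 r hr).trans (not_lt.1 hcon)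
        have h1 : Tendsto (fun ε : ℝ => l s + ε * l' s) (𝓝 0) (𝓝 (l s + 0 * l' s)) := by
          apply Continuous.tendsto
          fun_prop
        have h2 : Tendsto (fun ε : ℝ => l t + ε * l' t) (𝓝 0) (𝓝 (l t + 0 * l' t)) := by
          apply Continuous.tendsto
          fun_prop
        have h3 := h1.eventually_lt h2 (by simpa using hlt)
        exact h3.filter_mono nhdsWithin_le_nhds
      filter_upwards [this] with ε hε _ using hε
  obtain ⟨ε, hε, hε0⟩ := (key.and self_mem_nhdsWithin).exists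
  have hε0' : 0 < ε := hε0
  have heq : maxOn (maxOn S l) l' = maxOn S (l + ε • l') := by
    ext s
    simp only [mem_maxOn, _root_.add_apply, _root_.smul_apply,
      smul_eq_mul]
    constructor
    · rintro ⟨⟨hs, hs1⟩, hs2⟩
      refine ⟨hs, fun t ht => ?_⟩
      by_cases ht' : t ∈ maxOn S l
      · have h1 := hs1 t ht
        have h2 := hs2 t (mem_maxOn.1 ht')
        have := mul_le_mul_of_nonneg_left h2 hε0'.le
        linarith
      · exact (hε t ht ht' s (mem_maxOn.2 ⟨hs, hs1⟩)).le
    · rintro ⟨hs, hs1⟩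
      have hsm : s ∈ maxOn S l := by
        by_contra hcon
        obtain ⟨t, ht⟩ := maxOn_nonempty hne l
        have h1 := hε s hs hcon t ht
        have h2 := hs1 t (mem_maxOn.1 ht).1
        linarith
      refine ⟨mem_maxOn.1 hsm, fun t ht => ?_⟩
      have h1 := hs1 t ht.1
      have h2 : l s = l t := le_antisymm (ht.2 s hs) ((mem_maxOn.1 hsm).2 t ht.1)
      have h3 : ε * l' t ≤ ε * l' s := by linarith
      exact le_of_mul_le_mul_left h3 hε0'
  rw [heq]
  exact face_hull hne _

/-- A face is the intersection of the polytope with its affine span. -/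
lemma Face.eq_inter {P F : Set E} (hF : Face P F) : F = P ∩ (affineSpan ℝ F : Set E) := by
  apply Set.Subset.antisymm
  · intro x hx
    exact ⟨hF.subset hx, subset_affineSpan ℝ F hx⟩
  · rintro x ⟨hxP, hx⟩
    obtain ⟨l, hl⟩ := hF.2 hF.1
    obtain ⟨p, hp⟩ := hF.1
    have hconst : ∀ y ∈ F, l y = l p := by
      intro y hy
      have hy' := hy
      have hp' := hp
      rw [hl] at hy' hp'
      exact le_antisymm (hp'.2 y hy'.1) (hy'.2 p hp'.1)
    have hspan : ∀ y ∈ affineSpan ℝ F, l y = l p := by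
      intro y hy
      have h1 : (affineSpan ℝ F) ≤ AffineSubspace.mk' p (LinearMap.ker l.toLinearMap) := by
        rw [affineSpan_le]
        intro z hz
        rw [SetLike.mem_coe, AffineSubspace.mem_mk', LinearMap.mem_ker]
        have := hconst z hz
        simp [vsub_eq_sub, this]
      have h2 := h1 hy
      rw [AffineSubspace.mem_mk', LinearMap.mem_ker] at h2
      have h3 : l y - l p = 0 := by simpa [vsub_eq_sub] using h2
      linarith
    have hlx := hspan x hx
    have hp' := hp
    rw [hl] at hp' ⊢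
    exact ⟨hxP, fun y hy => by rw [hlx]; exact hp'.2 y hy⟩

lemma Face.convex {S : Finset E} {F : Set E} (hF : Face (convexHull ℝ (S : Set E)) F) :
    Convex ℝ F := by
  obtain ⟨l, rfl⟩ := Face.exists_hull hF
  exact convex_convexHull ℝ _

lemma Face.isCompact {S : Finset E} {F : Set E} (hF : Face (convexHull ℝ (S : Set E)) F) :
    IsCompact F := by
  obtain ⟨l, rfl⟩ := Face.exists_hull hF
  exact (Finset.finite_toSet (maxOn S l)).isCompact_convexHull ℝ

/-- A subface of full dimension is everything. -/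
lemma Face.eq_of_vectorSpan [FiniteDimensional ℝ E] {P F G : Set E} (hF : Face P F)
    (hG : Face P G) (hGF : G ⊆ F)
    (hd : finrank ℝ (vectorSpan ℝ G) = finrank ℝ (vectorSpan ℝ F)) : G = F := by
  have h1 : vectorSpan ℝ G = vectorSpan ℝ F :=
    Submodule.eq_of_le_of_finrank_eq (vectorSpan_mono ℝ hGF) hd
  have h2 : affineSpan ℝ G = affineSpan ℝ F := by
    obtain ⟨p, hp⟩ := hG.1
    apply AffineSubspace.ext_of_direction_eq
    · rw [direction_affineSpan, direction_affineSpan, h1]
    · exact ⟨p, subset_affineSpan ℝ G hp, subset_affineSpan ℝ F (hGF hp)⟩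
  rw [hF.eq_inter, hG.eq_inter, h2]

end

end Pool.Agent.FaceContents
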