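import Mathlib

/-!
# Independent tuples of normals and a suitable orthonormal basis
-/

namespace Pool.Agent.FaceContents

open Module Finset
open scoped ENNReal RealInnerProductSpace

variable {κ : Type*} {W : Type*} [NormedAddCommGroup W] [InnerProductSpace ℝ W]

section
open Classical

/-- `j`-tuples in `S` whose vectors `N` are linearly independent. -/
noncomputable def tuples (N : κ → W) (S : Finset κ) (j : ℕ) : Finset (Fin j → κ) :=
  (Fintype.piFinset (fun _ => S)).filter (fun f => LinearIndependent ℝ (fun i => N (f i)))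

lemma mem_tuples {N : κ → W} {S : Finset κ} {j : ℕ} {f : Fin j → κ} :
    f ∈ tuples N S j ↔ (∀ i, f i ∈ S) ∧ LinearIndependent ℝ (fun i => N (f i)) := by
  simp [tuples, Fintype.mem_piFinset]

/-- A subspace of dimension at most `r` minimising the mass outside. -/
lemma exists_min_subspace (N : κ → W) (S : Finset κ) (a : κ → ℝ≥0∞) (r : ℕ) :
    ∃ E : Submodule ℝ W, finrank ℝ E ≤ r ∧ FiniteDimensional ℝ E ∧
      ∀ E' : Submodule ℝ W, finrank ℝ E' ≤ r → FiniteDimensional ℝ E' →
      ∑ G ∈ S.filter (fun G => N G ∉ E), a G ≤ ∑ G ∈ S.filter (fun G => N G ∉ E'), a G := by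
  let P : Finset (Finset κ) := S.powerset.filter (fun T => ∃ E : Submodule ℝ W,
    finrank ℝ E ≤ r ∧ FiniteDimensional ℝ E ∧ S.filter (fun G => N G ∉ E) = T)
  have hP : P.Nonempty := by
    refine ⟨S.filter (fun G => N G ∉ (⊥ : Submodule ℝ W)), ?_⟩
    rw [Finset.mem_filter, Finset.mem_powerset]
    refine ⟨Finset.filter_subset _ _, ⊥, ?_, inferInstance, rfl⟩
    simp
  obtain ⟨T, hT, hmin⟩ := Finset.exists_min_image P (fun T => ∑ G ∈ T, a G) hP
  rw [Finset.mem_filter] at hT
  obtain ⟨-, E, hE, hfd, rfl⟩ := hT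
  refine ⟨E, hE, hfd, fun E' hE' hfd' => hmin _ ?_⟩
  rw [Finset.mem_filter, Finset.mem_powerset]
  exact ⟨Finset.filter_subset _ _, E', hE', hfd', rfl⟩

/-- The sum over `(j+1)`-tuples splits over the last entry. -/
lemma sum_tuples_succ (N : κ → W) (S : Finset κ) (a : κ → ℝ≥0∞) (j : ℕ) :
    ∑ f ∈ tuples N S (j + 1), ∏ i, a (f i) =
      ∑ f ∈ tuples N S j, (∏ i, a (f i)) *
        ∑ G ∈ S.filter (fun G => N G ∉ Submodule.span ℝ (Set.range (fun i => N (f i)))), a G := by
  simp_rw [Finset.mul_sum]
  rw [Finset.sum_sigma']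
  refine Finset.sum_nbij' (fun f => ⟨Fin.init f, f (Fin.last j)⟩)
    (fun p => Fin.snoc p.1 p.2) ?_ ?_ ?_ ?_ ?_
  · intro f hf
    rw [mem_tuples] at hf
    have h1 : (fun i => N (f i)) = Fin.snoc (α := fun _ => W) (fun i : Fin j => N (Fin.init f i))
        (N (f (Fin.last j))) := by
      funext i
      refine Fin.lastCases ?_ (fun i => ?_) i
      · simp
      · simp [Fin.init]
    rw [h1, linearIndependent_finSnoc] at hf
    simp only [Finset.mem_sigma, mem_tuples, Finset.mem_filter]
    exact ⟨⟨fun i => hf.1 _, hf.2.1⟩, hf.1 _, hf.2.2⟩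
  · rintro ⟨f, G⟩ hfG
    simp only [Finset.mem_sigma, mem_tuples, Finset.mem_filter] at hfG
    rw [mem_tuples]
    refine ⟨fun i => ?_, ?_⟩
    · refine Fin.lastCases ?_ (fun i => ?_) i
      · simpa using hfG.2.1
      · simpa using hfG.1.1 i
    · have h1 : (fun i => N ((Fin.snoc f G : Fin (j + 1) → κ) i)) =
          Fin.snoc (α := fun _ => W) (fun i : Fin j => N (f i)) (N G) := by
        funext i
        refine Fin.lastCases ?_ (fun i => ?_) i
        · simp
        · simp
      rw [h1, linearIndependent_finSnoc]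
      exact ⟨hfG.1.2, hfG.2.2⟩
  · intro f _
    simp
  · rintro ⟨f, G⟩ _
    simp
  · intro f _
    simp only
    rw [Fin.prod_univ_castSucc]
    rfl

/-- Lower bound of the sum over independent tuples by the product of the minimal masses. -/
lemma prod_le_sum_tuples (N : κ → W) (S : Finset κ) (a : κ → ℝ≥0∞) (m : ℕ → ℝ≥0∞)
    (hm : ∀ r, ∀ E' : Submodule ℝ W, finrank ℝ E' ≤ r → FiniteDimensional ℝ E' →
      m r ≤ ∑ G ∈ S.filter (fun G => N G ∉ E'), a G) (j : ℕ) :
    ∏ r ∈ Finset.range j, m r ≤ ∑ f ∈ tuples N S j, ∏ i, a (f i) := by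
  induction j with
  | zero =>
    have h : (tuples N S 0) = Finset.univ := by
      ext f
      simp only [mem_tuples, Finset.mem_univ, iff_true]
      exact ⟨fun i => i.elim0, linearIndependent_empty_type⟩
    rw [h]
    simp
  | succ j ih =>
    rw [sum_tuples_succ, Finset.prod_range_succ]
    refine (mul_le_mul_left ih _).trans ?_
    rw [Finset.sum_mul]
    refine Finset.sum_le_sum fun f hf => ?_
    rw [mem_tuples] at hf
    refine mul_le_mul_right (hm j _ ?_ (FiniteDimensional.span_of_finite ℝ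
      (Set.finite_range _))) _
    have := finrank_span_eq_card hf.2
    rw [this]
    simp

variable [FiniteDimensional ℝ W]

/-- Orthonormal vectors orthogonal to prescribed subspaces. -/
lemma exists_orthonormal (k : ℕ) (hk : finrank ℝ W = k) (E : ℕ → Submodule ℝ W)
    (hE : ∀ r, finrank ℝ (E r) ≤ r) (j : ℕ) (hj : j ≤ k) :
    ∃ u : Fin j → W, Orthonormal ℝ u ∧ ∀ i : Fin j, ∀ x ∈ E (k - 1 - i), ⟪x, u i⟫ = 0 := by
  induction j with
  | zero =>
    refine ⟨fun i => i.elim0, ⟨fun i => i.elim0, fun i => i.elim0⟩, fun i => i.elim0⟩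
  | succ j ih =>
    obtain ⟨u, hu, hu2⟩ := ih (by omega)
    set V : Submodule ℝ W := E (k - 1 - j) ⊔ Submodule.span ℝ (Set.range u) with hV
    have h1 : finrank ℝ V < finrank ℝ W := by
      have h2 : finrank ℝ V ≤ finrank ℝ (E (k - 1 - j)) +
          finrank ℝ (Submodule.span ℝ (Set.range u)) := Submodule.finrank_add_le_finrank_add_finrank _ _
      have h3 : finrank ℝ (Submodule.span ℝ (Set.range u)) ≤ j := by
        exact (finrank_range_le_card (R := ℝ) u).trans (by simp)
      have h4 := hE (k - 1 - j)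
      omega
    have h5 : Vᗮ ≠ ⊥ := by
      intro h
      rw [Submodule.orthogonal_eq_bot_iff] at h
      rw [h, finrank_top] at h1
      exact lt_irrefl _ h1
    obtain ⟨y, hy, hy0⟩ := (Submodule.ne_bot_iff _).1 h5
    set z : W := (‖y‖⁻¹ : ℝ) • y with hz
    have hynorm : ‖y‖ ≠ 0 := norm_ne_zero_iff.2 hy0
    have hznorm : ‖z‖ = 1 := by
      rw [hz, norm_smul, norm_inv, norm_norm, inv_mul_cancel₀ hynorm]
    have hzV : z ∈ Vᗮ := Submodule.smul_mem _ _ hy
    have hzu : ∀ i, ⟪u i, z⟫ = 0 := fun i =>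
      (Submodule.mem_orthogonal _ _).1 hzV _ (Submodule.mem_sup_right
        (Submodule.subset_span ⟨i, rfl⟩))
    refine ⟨Fin.snoc (α := fun _ => W) u z, ⟨?_, ?_⟩, ?_⟩
    · intro i
      refine Fin.lastCases ?_ (fun i => ?_) i
      · simpa using hznorm
      · simpa using hu.1 i
    · intro i i' hii'
      revert hii'
      refine Fin.lastCases ?_ (fun i => ?_) i
      · refine Fin.lastCases ?_ (fun i' => ?_) i'
        · intro h; exact absurd rfl h
        · intro _
          simp only [Fin.snoc_last, Fin.snoc_castSucc]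
          rw [real_inner_comm]
          exact hzu i'
      · refine Fin.lastCases ?_ (fun i' => ?_) i'
        · intro _
          simp only [Fin.snoc_last, Fin.snoc_castSucc]
          exact hzu i
        · intro h
          simp only [Fin.snoc_castSucc]
          exact hu.2 (fun h' => h (by rw [h']))
    · intro i
      refine Fin.lastCases ?_ (fun i => ?_) i
      · intro x hx
        simp only [Fin.snoc_last]
        simp only [Fin.val_last] at hx
        exact (Submodule.mem_orthogonal _ _).1 hzV _ (Submodule.mem_sup_left hx)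
      · intro x hx
        simp only [Fin.snoc_castSucc]
        simp only [Fin.val_castSucc] at hx
        exact hu2 i x hx

/-- **Basis lemma.** There is an orthonormal basis `u` such that the product of the masses of
the vectors not orthogonal to `u i` is at most the sum over independent tuples. -/
theorem exists_basis_prod_le (k : ℕ) (hk : finrank ℝ W = k) (N : κ → W) (S : Finset κ)
    (a : κ → ℝ≥0∞) :
    ∃ u : OrthonormalBasis (Fin k) ℝ W,
      ∏ i, ∑ G ∈ S.filter (fun G => ⟪N G, u i⟫ ≠ 0), a G ≤ ∑ f ∈ tuples N S k, ∏ i, a (f i) := by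
  choose E hE1 hE2 hE3 using exists_min_subspace N S a
  obtain ⟨u, hu, hu2⟩ := exists_orthonormal k hk E hE1 k le_rfl
  have hspan : ⊤ ≤ Submodule.span ℝ (Set.range u) := by
    rw [hu.linearIndependent.span_eq_top_of_card_eq_finrank' (by simp [hk])]
  refine ⟨OrthonormalBasis.mk hu hspan, ?_⟩
  rw [OrthonormalBasis.coe_mk]
  have h1 := prod_le_sum_tuples N S a (fun r => ∑ G ∈ S.filter (fun G => N G ∉ E r), a G)
    (fun r E' h h' => hE3 r E' h h') k
  refine le_trans ?_ h1
  rw [← Finset.prod_range_reflect, ← Fin.prod_univ_eq_prod_range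
    (fun i => ∑ G ∈ S.filter (fun G => N G ∉ E (k - 1 - i)), a G) k]
  refine Finset.prod_le_prod' fun i _ => ?_
  apply Finset.sum_le_sum_of_subset
  intro G hG
  rw [Finset.mem_filter] at hG ⊢
  refine ⟨hG.1, fun h => hG.2 (hu2 i _ h)⟩

end

end Pool.Agent.FaceContents
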