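import Mathlib
import Pool.Agent.FaceContents.Faces
import Pool.Agent.FaceContents.Chart
import Pool.Agent.FaceContents.Tuples

/-!
# The volume of a face is controlled by the independent tuples of its facets
-/

namespace Pool.Agent.FaceContents

open Module Set Filter Topology MeasureTheory MeasureTheory.Measure
open scoped ENNReal RealInnerProductSpace

section Cover

variable {m : ℕ}

/-- Every point of a convex body can be pushed to the boundary along a coordinate direction. -/
lemma exists_supporting (K : Set (Fin (m + 1) → ℝ)) (hK : IsCompact K) (hc : Convex ℝ K)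
    (hi : (interior K).Nonempty) (i : Fin (m + 1)) {y : Fin (m + 1) → ℝ} (hy : y ∈ K) :
    ∃ z ∈ K, delCoord i z = delCoord i y ∧ ∃ l : (Fin (m + 1) → ℝ) →L[ℝ] ℝ,
      (∀ a ∈ K, l a ≤ l z) ∧ ∃ a ∈ K, l a < l z := by
  have hKy : IsCompact (K ∩ {z | delCoord i z = delCoord i y}) :=
    hK.inter_right (isClosed_eq (continuous_delCoord i) continuous_const)
  obtain ⟨z, ⟨hzK, hzy⟩, hmax⟩ := hKy.exists_isMaxOn ⟨y, hy, rfl⟩
    (continuous_apply i).continuousOn
  have hz : z ∉ interior K := by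
    intro hz
    have h1 : Tendsto (fun ε : ℝ => z + ε • (Pi.single i (1 : ℝ) : Fin (m + 1) → ℝ)) (𝓝 0)
        (𝓝 (z + (0 : ℝ) • (Pi.single i (1 : ℝ) : Fin (m + 1) → ℝ))) := by
      apply Continuous.tendsto
      fun_prop
    rw [zero_smul, add_zero] at h1
    have h2 : ∀ᶠ ε : ℝ in 𝓝[>] 0, z + ε • (Pi.single i (1 : ℝ) : Fin (m + 1) → ℝ) ∈ K :=
      ((h1.eventually (mem_interior_iff_mem_nhds.1 hz))).filter_mono nhdsWithin_le_nhds
    obtain ⟨ε, hε, hε0⟩ := (h2.and self_mem_nhdsWithin).exists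
    have hε0' : 0 < ε := hε0
    have h3 : z + ε • (Pi.single i (1 : ℝ) : Fin (m + 1) → ℝ) ∈
        K ∩ {z | delCoord i z = delCoord i y} := by
      refine ⟨hε, ?_⟩
      change delCoord i _ = delCoord i y
      have hzy' : delCoord i z = delCoord i y := hzy
      rw [← hzy']
      funext j
      simp [delCoord]
    have h4 := hmax h3
    simp only [Set.mem_ofPred_eq, Pi.add_apply, Pi.smul_apply, Pi.single_eq_same, smul_eq_mul,
      mul_one] at h4
    linarith
  obtain ⟨l, hl⟩ := geometric_hahn_banach_open_point hc.interior isOpen_interior hz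
  refine ⟨z, hzK, hzy, l, ?_, ?_⟩
  · intro a ha
    have h1 : a ∈ closure (interior K) := by
      rw [hc.closure_interior_eq_closure_of_nonempty_interior hi]
      exact subset_closure ha
    have h2 : closure (interior K) ⊆ {x | l x ≤ l z} :=
      closure_minimal (fun x hx => (hl x hx).le) (isClosed_le l.continuous continuous_const)
    exact h2 h1
  · obtain ⟨a, ha⟩ := hi
    exact ⟨a, interior_subset ha, hl a ha⟩

end Cover

variable {E : Type*} [NormedAddCommGroup E] [InnerProductSpace ℝ E]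

lemma cover {m : ℕ} (u : Fin (m + 1) → E) (F : Set E) (hF : IsCompact F) (hc : Convex ℝ F)
    (hi : (interior (coordL u '' F)).Nonempty) (i : Fin (m + 1)) :
    delCoord i '' (coordL u '' F) ⊆ ⋃ G ∈ {G : Set E | Face F G ∧ G ≠ F},
      coordL (fun j => u (i.succAbove j)) '' G := by
  rintro _ ⟨y, hy, rfl⟩
  obtain ⟨z, hz, hzy, l, hl1, hl2⟩ := exists_supporting _ (hF.image (coordL u).continuous)
    (hc.linear_image (coordL u).toLinearMap) hi i hy
  obtain ⟨x, hx, rfl⟩ := hz
  rw [Set.mem_iUnion₂]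
  refine ⟨{x ∈ F | ∀ y ∈ F, (l ∘L coordL u) y ≤ (l ∘L coordL u) x}, ⟨⟨⟨x, hx, ?_⟩, ?_⟩, ?_⟩,
    ?_⟩
  · intro y hy
    exact hl1 _ ⟨y, hy, rfl⟩
  · intro _
    exact ⟨l ∘L coordL u, rfl⟩
  · intro heq
    obtain ⟨_, ⟨a, ha, rfl⟩, hlt⟩ := hl2
    rw [← heq] at ha
    exact absurd (ha.2 x hx) (not_le.2 hlt)
  · refine ⟨x, ⟨hx, fun y hy => hl1 _ ⟨y, hy, rfl⟩⟩, ?_⟩
    rw [← hzy, delCoord_coordL]

/-- The image of a set under a linear map which is not onto on the direction is null. -/
lemma volume_coordL_null {m : ℕ} (v : Fin m → E) (G : Set E)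
    (h : Submodule.map (coordL v).toLinearMap (vectorSpan ℝ G) ≠ ⊤) :
    volume (coordL v '' G) = 0 := by
  rcases G.eq_empty_or_nonempty with rfl | ⟨p, hp⟩
  · simp
  have hne : AffineSubspace.mk' (coordL v p)
      (Submodule.map (coordL v).toLinearMap (vectorSpan ℝ G)) ≠ ⊤ := by
    intro heq
    apply h
    rw [← AffineSubspace.direction_mk' (coordL v p)
      (Submodule.map (coordL v).toLinearMap (vectorSpan ℝ G)), heq, AffineSubspace.direction_top]
  refine measure_mono_null ?_ (Measure.addHaar_affineSubspace volume _ hne)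
  rintro _ ⟨x, hx, rfl⟩
  rw [SetLike.mem_coe, AffineSubspace.mem_mk']
  refine ⟨x - p, ?_, ?_⟩
  · exact vsub_mem_vectorSpan ℝ hx hp
  · simp [vsub_eq_sub]

variable [FiniteDimensional ℝ E]

lemma mem_of_inner_eq_zero {m : ℕ} {D DG : Submodule ℝ E} (hle : DG ≤ D)
    (hD : finrank ℝ D = m + 1) (hDG : finrank ℝ DG = m) {N : E} (hND : N ∈ D) (hN0 : N ≠ 0)
    (hperp : ∀ v ∈ DG, ⟪N, v⟫ = 0) {w : E} (hwD : w ∈ D) (hw : ⟪N, w⟫ = 0) : w ∈ DG := by
  have h1 : DG ≤ D ⊓ (Submodule.span ℝ {N})ᗮ := by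
    intro v hv
    exact ⟨hle hv, Submodule.mem_orthogonal_singleton_iff_inner_right.2 (hperp v hv)⟩
  have h2 : D ⊓ (Submodule.span ℝ {N})ᗮ < D := by
    refine lt_of_le_of_ne inf_le_left fun h => ?_
    have h3 : N ∈ D ⊓ (Submodule.span ℝ {N})ᗮ := by rw [h]; exact hND
    have h4 := (Submodule.mem_orthogonal_singleton_iff_inner_right).1 h3.2
    exact hN0 (inner_self_eq_zero.1 h4)
  have h3 := Submodule.finrank_lt_finrank_of_lt h2
  have h4 : DG = D ⊓ (Submodule.span ℝ {N})ᗮ :=
    Submodule.eq_of_le_of_finrank_le h1 (by omega)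
  rw [h4]
  exact ⟨hwD, Submodule.mem_orthogonal_singleton_iff_inner_right.2 hw⟩

lemma finrank_map_lt {V : Type*} [AddCommGroup V] [Module ℝ V] (T : E →ₗ[ℝ] V)
    (D : Submodule ℝ E) {w : E} (hw : w ∈ D) (hw0 : w ≠ 0) (hTw : T w = 0) :
    finrank ℝ (Submodule.map T D) < finrank ℝ D := by
  have h1 := LinearMap.finrank_range_add_finrank_ker (T.domRestrict D)
  have h2 : LinearMap.range (T.domRestrict D) = Submodule.map T D := by
    ext y
    simp [LinearMap.domRestrict]
  have h3 : 0 < finrank ℝ (LinearMap.ker (T.domRestrict D)) := by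
    rw [Module.finrank_pos_iff_exists_ne_zero]
    refine ⟨⟨⟨w, hw⟩, by simpa [LinearMap.mem_ker] using hTw⟩, ?_⟩
    intro h
    apply hw0
    have := congrArg Subtype.val (congrArg Subtype.val h)
    simpa using this
  rw [h2] at h1
  omega

omit [FiniteDimensional ℝ E] in
lemma sum_repr_coe {n : ℕ} (D : Submodule ℝ E) (u : OrthonormalBasis (Fin n) ℝ D) {v : E}
    (hv : v ∈ D) : ∑ i, ⟪(u i : E), v⟫ • (u i : E) = v := by
  have h2 := congrArg (D.subtype) (u.sum_repr' ⟨v, hv⟩)
  rw [_root_.map_sum] at h2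
  simpa using h2

section
open Classical

/-- The `k`-dimensional faces of the polytope spanned by `S`. -/
noncomputable def facesFin (S : Finset E) (k : ℕ) : Finset (Set E) :=
  (finite_faces S).toFinset.filter (fun F => finrank ℝ (vectorSpan ℝ F) = k)

omit [FiniteDimensional ℝ E] in
lemma mem_facesFin {S : Finset E} {k : ℕ} {F : Set E} : F ∈ facesFin S k ↔
    Face (convexHull ℝ (S : Set E)) F ∧ finrank ℝ (vectorSpan ℝ F) = k := by
  simp [facesFin]

variable [MeasurableSpace E] [BorelSpace E]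

/-- The local inequality. -/
theorem local_bound (S : Finset E) (m : ℕ) (hm : 1 ≤ m) (F : Set E) (hF : F ∈ facesFin S (m + 1))
    (N : Set E → vectorSpan ℝ F)
    (hN : ∀ G ∈ facesFin S m, G ⊆ F → N G ≠ 0 ∧ ∀ v ∈ vectorSpan ℝ G, ⟪(N G : E), v⟫ = 0) :
    (μHE[m + 1] F) ^ m ≤
      ∑ f ∈ tuples N ((facesFin S m).filter (fun G => G ⊆ F)) (m + 1), ∏ i, μHE[m] (f i) := by
  obtain ⟨hFf, hdim⟩ := mem_facesFin.1 hF
  obtain ⟨u, hu⟩ := exists_basis_prod_le (m + 1) hdim N ((facesFin S m).filter (fun G => G ⊆ F))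
    (fun G => μHE[m] G)
  refine le_trans ?_ hu
  have huo : Orthonormal ℝ (fun i => (u i : E)) :=
    u.orthonormal.comp_linearIsometry (vectorSpan ℝ F).subtypeₗᵢ
  obtain ⟨p, hp⟩ := hFf.1
  have hchart : ∀ x ∈ F, x = (p - ∑ i, ⟪(u i : E), p⟫ • (u i : E)) +
      ∑ i, ⟪(u i : E), x⟫ • (u i : E) := by
    intro x hx
    have h1 : x - p ∈ vectorSpan ℝ F := vsub_mem_vectorSpan ℝ hx hp
    have h2 := sum_repr_coe _ u h1
    simp only [inner_sub_right, sub_smul, Finset.sum_sub_distrib] at h2
    rw [sub_add_eq_add_sub, add_sub_assoc, h2]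
    abel
  have hvol : μHE[m + 1] F = volume (coordL (fun i => (u i : E)) '' F) :=
    (volume_coordL_eq huo F _ hchart).symm
  rw [hvol]
  have hKc : IsCompact (coordL (fun i => (u i : E)) '' F) :=
    hFf.isCompact.image (coordL _).continuous
  have hKconv : Convex ℝ (coordL (fun i => (u i : E)) '' F) :=
    hFf.convex.linear_image (coordL _).toLinearMap
  by_cases hi : (interior (coordL (fun i => (u i : E)) '' F)).Nonempty
  swap
  · have h0 : volume (coordL (fun i => (u i : E)) '' F) = 0 := by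
      refine measure_mono_null ?_ (hKconv.addHaar_frontier volume)
      rw [hKc.isClosed.frontier_eq, Set.not_nonempty_iff_eq_empty.1 hi]
      simp
    rw [h0, zero_pow (by omega)]
    exact zero_le
  refine (loomis_whitney m _ hKc (hFf.1.image _)).trans ?_
  refine Finset.prod_le_prod' fun i _ => ?_
  have hfin : {G : Set E | Face F G ∧ G ≠ F}.Finite :=
    (finite_faces S).subset fun G hG => hFf.trans hG.1
  refine (measure_mono (cover _ F hFf.isCompact hFf.convex hi i)).trans ?_
  have hcov : (⋃ G ∈ {G : Set E | Face F G ∧ G ≠ F},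
      coordL (fun j => (u (i.succAbove j) : E)) '' G) =
      ⋃ G ∈ hfin.toFinset, coordL (fun j => (u (i.succAbove j) : E)) '' G := by
    ext x
    simp
  rw [hcov]
  refine (measure_biUnion_finset_le _ _).trans ?_
  have hzero : ∀ G ∈ hfin.toFinset, G ∉ (((facesFin S m).filter (fun G => G ⊆ F)).filter
      (fun G => ⟪N G, u i⟫ ≠ 0)) →
      volume (coordL (fun j => (u (i.succAbove j) : E)) '' G) = 0 := by
    intro G hG hG'
    rw [Set.Finite.mem_toFinset] at hG
    obtain ⟨hGF, hGne⟩ := hG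
    have hGP := hFf.trans hGF
    have hle : finrank ℝ (vectorSpan ℝ G) ≤ finrank ℝ (vectorSpan ℝ F) :=
      Submodule.finrank_mono (vectorSpan_mono ℝ hGF.subset)
    have hne : finrank ℝ (vectorSpan ℝ G) ≠ finrank ℝ (vectorSpan ℝ F) := fun h =>
      hGne (hFf.eq_of_vectorSpan hGP hGF.subset h)
    apply volume_coordL_null
    intro htop
    have h1 : finrank ℝ (Submodule.map (coordL (fun j => (u (i.succAbove j) : E))).toLinearMap
        (vectorSpan ℝ G)) = m := by
      rw [htop]
      simp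
    rcases lt_or_eq_of_le (show finrank ℝ (vectorSpan ℝ G) ≤ m by omega) with hlt | heq
    · have := Submodule.finrank_map_le (coordL (fun j => (u (i.succAbove j) : E))).toLinearMap
        (vectorSpan ℝ G)
      omega
    · have hGm : G ∈ facesFin S m := mem_facesFin.2 ⟨hGP, heq⟩
      obtain ⟨hN0, hNperp⟩ := hN G hGm hGF.subset
      have hNu : ⟪N G, u i⟫ = 0 := by
        by_contra hcon
        apply hG'
        rw [Finset.mem_filter, Finset.mem_filter]
        exact ⟨⟨hGm, hGF.subset⟩, hcon⟩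
      have hmem : (u i : E) ∈ vectorSpan ℝ G :=
        mem_of_inner_eq_zero (vectorSpan_mono ℝ hGF.subset) hdim heq (N G).2
          (fun h => hN0 (Subtype.ext h)) hNperp (u i).2 hNu
      have h2 := finrank_map_lt (coordL (fun j => (u (i.succAbove j) : E))).toLinearMap
        (vectorSpan ℝ G) hmem (huo.ne_zero i) (by
          funext j
          change ⟪(u (i.succAbove j) : E), (u i : E)⟫ = 0
          exact huo.2 (Fin.succAbove_ne i j))
      omega
  have hvo : Orthonormal ℝ (fun j => (u (i.succAbove j) : E)) :=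
    huo.comp _ (Fin.succAbove_right_injective)
  calc ∑ G ∈ hfin.toFinset, volume (coordL (fun j => (u (i.succAbove j) : E)) '' G)
      ≤ ∑ G ∈ hfin.toFinset, if G ∈ (((facesFin S m).filter (fun G => G ⊆ F)).filter
          (fun G => ⟪N G, u i⟫ ≠ 0)) then μHE[m] G else 0 := by
        refine Finset.sum_le_sum fun G hG => ?_
        split_ifs with h
        · exact volume_coordL_le hvo G
        · rw [hzero G hG h]
    _ = ∑ G ∈ hfin.toFinset.filter (fun G => G ∈ (((facesFin S m).filter
          (fun G => G ⊆ F)).filter (fun G => ⟪N G, u i⟫ ≠ 0))), μHE[m] G := by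
        rw [Finset.sum_filter]
    _ ≤ _ := by
        apply Finset.sum_le_sum_of_subset
        intro G hG
        exact (Finset.mem_filter.1 hG).2

end

end Pool.Agent.FaceContents
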