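import Mathlib
import Pool.Agent.FaceContents.Local

/-!
# Generic lifting of the faces to points and lines
-/

namespace Pool.Agent.FaceContents

open Module Set Filter Topology
open scoped RealInnerProductSpace

variable {E : Type*} [NormedAddCommGroup E] [InnerProductSpace ℝ E] [FiniteDimensional ℝ E]

omit [FiniteDimensional ℝ E] in
/-- A vector not orthogonal to any of finitely many nonzero vectors. -/
lemma exists_generic (Z : Set E) (hfin : Z.Finite) (hZ : ∀ z ∈ Z, z ≠ 0) :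
    ∃ q : E, ∀ z ∈ Z, ⟪q, z⟫ ≠ 0 := by
  classical
  have h := Subspace.biUnion_ne_univ_of_top_notMem (k := ℝ) (E := E)
    (s := hfin.toFinset.image (fun z => (Submodule.span ℝ {z})ᗮ)) (by
      rw [Finset.mem_image]
      rintro ⟨z, hz, hzt⟩
      rw [Set.Finite.mem_toFinset] at hz
      have h1 : z ∈ (Submodule.span ℝ {z})ᗮ := by rw [hzt]; trivial
      have h2 := Submodule.mem_orthogonal_singleton_iff_inner_right.1 h1
      exact hZ z hz (inner_self_eq_zero.1 h2))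
  rw [Set.ne_univ_iff_exists_notMem] at h
  obtain ⟨q, hq⟩ := h
  refine ⟨q, fun z hz hcon => hq ?_⟩
  rw [Set.mem_iUnion₂]
  refine ⟨(Submodule.span ℝ {z})ᗮ, Finset.mem_image.2 ⟨z, hfin.mem_toFinset.2 hz, rfl⟩, ?_⟩
  exact Submodule.mem_orthogonal_singleton_iff_inner_left.2 hcon

/-- A generic projection is injective on finitely many small subspaces. -/
lemma exists_generic_proj (k : ℕ) : ∀ (𝒟 : Set (Submodule ℝ E)), 𝒟.Finite →
    (∀ D ∈ 𝒟, finrank ℝ D ≤ k) →
    ∃ q : Fin k → E, ∀ D ∈ 𝒟, ∀ v ∈ D, (∀ j, ⟪q j, v⟫ = 0) → v = 0 := by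
  induction k with
  | zero =>
    intro 𝒟 _ h
    refine ⟨fun i => i.elim0, fun D hD v hv _ => ?_⟩
    have h1 : finrank ℝ D = 0 := Nat.le_zero.1 (h D hD)
    rw [Submodule.finrank_eq_zero] at h1
    rw [h1] at hv
    simpa using hv
  | succ k ih =>
    intro 𝒟 hfin h
    have hz : ∀ D : Submodule ℝ E, D ≠ ⊥ → ∃ z ∈ D, z ≠ 0 := fun D hD =>
      (Submodule.ne_bot_iff D).1 hD
    choose! z hz1 hz2 using hz
    obtain ⟨q0, hq0⟩ := exists_generic (z '' {D ∈ 𝒟 | D ≠ ⊥})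
      ((hfin.subset (fun D hD => hD.1)).image z) (by
        rintro _ ⟨D, hD, rfl⟩
        exact hz2 D hD.2)
    obtain ⟨q, hq⟩ := ih ((fun D => D ⊓ (Submodule.span ℝ {q0})ᗮ) '' 𝒟) (hfin.image _) (by
      rintro _ ⟨D, hD, rfl⟩
      by_cases hbot : D = ⊥
      · have h0 : D ⊓ (Submodule.span ℝ {q0})ᗮ = ⊥ := by rw [hbot, bot_inf_eq]
        change finrank ℝ (D ⊓ (Submodule.span ℝ {q0})ᗮ : Submodule ℝ E) ≤ k
        rw [h0, finrank_bot]
        exact Nat.zero_le _
      · have h1 : D ⊓ (Submodule.span ℝ {q0})ᗮ < D := by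
          refine lt_of_le_of_ne inf_le_left fun heq => ?_
          have h2 : z D ∈ D ⊓ (Submodule.span ℝ {q0})ᗮ := by
            rw [heq]
            exact hz1 D hbot
          have h3 := Submodule.mem_orthogonal_singleton_iff_inner_right.1 h2.2
          exact hq0 _ ⟨D, ⟨hD, hbot⟩, rfl⟩ h3
        have h2 := Submodule.finrank_lt_finrank_of_lt h1
        have h3 := h D hD
        simp only
        omega)
    refine ⟨Fin.cons q0 q, fun D hD v hv hj => ?_⟩
    have h0 : ⟪q0, v⟫ = 0 := by simpa using hj 0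
    refine hq _ ⟨D, hD, rfl⟩ v ⟨hv, Submodule.mem_orthogonal_singleton_iff_inner_right.2 h0⟩
      fun j => ?_
    simpa using hj j.succ

/-- The adjoint of the coordinate map restricted to `D`. -/
noncomputable def adj {n : ℕ} (q : Fin n → E) (D : Submodule ℝ E) : (Fin n → ℝ) →ₗ[ℝ] D :=
  Fintype.linearCombination ℝ (fun j => D.orthogonalProjectionOnto (q j))

lemma adj_inner {n : ℕ} (q : Fin n → E) (D : Submodule ℝ E) (x : Fin n → ℝ) {v : E}
    (hv : v ∈ D) : ⟪(adj q D x : E), v⟫ = ∑ j, x j * ⟪q j, v⟫ := by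
  have h1 : ⟪(adj q D x : E), v⟫ = ⟪adj q D x, (⟨v, hv⟩ : D)⟫ := rfl
  rw [h1, adj, Fintype.linearCombination_apply, sum_inner]
  refine Finset.sum_congr rfl fun j _ => ?_
  rw [real_inner_smul_left, Submodule.inner_orthogonalProjectionOnto_eq_of_mem_right]

lemma adj_bijective {n : ℕ} (q : Fin n → E) (D : Submodule ℝ E) (hD : finrank ℝ D = n)
    (hq : ∀ v ∈ D, (∀ j, ⟪q j, v⟫ = 0) → v = 0) : Function.Bijective (adj q D) := by
  have hs : Function.Surjective (adj q D) := by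
    rw [← LinearMap.range_eq_top, ← Submodule.orthogonal_eq_bot_iff, Submodule.eq_bot_iff]
    intro v hv
    have h1 : ∀ j, ⟪q j, (v : E)⟫ = 0 := by
      intro j
      have h2 := (Submodule.mem_orthogonal _ _).1 hv (adj q D (Pi.single j 1)) ⟨_, rfl⟩
      have h3 := adj_inner q D (Pi.single j 1) v.2
      rw [← Submodule.coe_inner, h2] at h3
      simp only [Pi.single_apply, ite_mul, one_mul, zero_mul, Finset.sum_ite_eq',
        Finset.mem_univ, if_true] at h3
      exact h3.symm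
    exact Subtype.ext (hq v v.2 h1)
  have hi := (LinearMap.injective_iff_surjective_of_finrank_eq_finrank
    (f := adj q D) (by simp [hD])).2 hs
  exact ⟨hi, hs⟩

/-- A linear functional is represented by the coordinates on `D`. -/
lemma exists_lift {n : ℕ} (q : Fin n → E) (F : Set E) (hF : F.Nonempty)
    (hD : finrank ℝ (vectorSpan ℝ F) = n)
    (hq : ∀ v ∈ vectorSpan ℝ F, (∀ j, ⟪q j, v⟫ = 0) → v = 0) (t : E) :
    ∃ (ξ : Fin n → ℝ) (c : ℝ), ∀ y ∈ F, ⟪t, y⟫ = ∑ j, ξ j * ⟪q j, y⟫ + c := by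
  obtain ⟨ξ, hξ⟩ := (adj_bijective q _ hD hq).2 ((vectorSpan ℝ F).orthogonalProjectionOnto t)
  obtain ⟨p, hp⟩ := hF
  refine ⟨ξ, ⟪t, p⟫ - ∑ j, ξ j * ⟪q j, p⟫, fun y hy => ?_⟩
  have h1 : y - p ∈ vectorSpan ℝ F := vsub_mem_vectorSpan ℝ hy hp
  have h2 := adj_inner q (vectorSpan ℝ F) ξ h1
  rw [hξ] at h2
  have h3 : ⟪(((vectorSpan ℝ F).orthogonalProjectionOnto t : vectorSpan ℝ F) : E), y - p⟫ =
      ⟪t, y - p⟫ :=
    Submodule.inner_orthogonalProjectionOnto_eq_of_mem_right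
      (⟨y - p, h1⟩ : vectorSpan ℝ F) t
  rw [h3, inner_sub_right] at h2
  simp only [inner_sub_right, mul_sub, Finset.sum_sub_distrib] at h2
  linarith

omit [FiniteDimensional ℝ E] in
/-- Identities on a set pass to its direction. -/
lemma inner_vectorSpan {n : ℕ} (q : Fin n → E) (F : Set E) (t : E) (ξ : Fin n → ℝ) (c : ℝ)
    (h : ∀ y ∈ F, ⟪t, y⟫ = ∑ j, ξ j * ⟪q j, y⟫ + c) :
    ∀ v ∈ vectorSpan ℝ F, ⟪t, v⟫ = ∑ j, ξ j * ⟪q j, v⟫ := by
  have h1 : vectorSpan ℝ F ≤ LinearMap.ker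
      ((innerSL ℝ t).toLinearMap - ∑ j, ξ j • (innerSL ℝ (q j)).toLinearMap) := by
    rw [vectorSpan, Submodule.span_le]
    rintro _ ⟨x, hx, y, hy, rfl⟩
    rw [SetLike.mem_coe, LinearMap.mem_ker]
    have h2 := h x hx
    have h3 := h y hy
    simp only [vsub_eq_sub, LinearMap.sub_apply, ContinuousLinearMap.coe_coe, innerSL_apply_apply,
      inner_sub_right, LinearMap.sum_apply, LinearMap.smul_apply, smul_eq_mul, mul_sub,
      Finset.sum_sub_distrib]
    linarith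
  intro v hv
  have h2 := h1 hv
  rw [LinearMap.mem_ker] at h2
  simp only [LinearMap.sub_apply, ContinuousLinearMap.coe_coe, innerSL_apply_apply,
    LinearMap.sum_apply, LinearMap.smul_apply, smul_eq_mul] at h2
  linarith

/-- Coordinates orthogonal to a small subspace. -/
lemma exists_conormal {n : ℕ} (q : Fin n → E) (D : Submodule ℝ E) (hD : finrank ℝ D < n) :
    ∃ ν : Fin n → ℝ, ν ≠ 0 ∧ ∀ v ∈ D, ∑ j, ν j * ⟪q j, v⟫ = 0 := by
  have h1 : LinearMap.ker (adj q D) ≠ ⊥ := LinearMap.ker_ne_bot_of_finrank_lt (by simpa using hD)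
  obtain ⟨ν, hν, hν0⟩ := (Submodule.ne_bot_iff _).1 h1
  refine ⟨ν, hν0, fun v hv => ?_⟩
  rw [← adj_inner q D ν hv, LinearMap.mem_ker.1 hν]
  simp

/-- Uniqueness of the conormal up to scaling. -/
lemma conormal_unique {m : ℕ} (q : Fin (m + 1) → E) (D DG : Submodule ℝ E) (hle : DG ≤ D)
    (hD : finrank ℝ D = m + 1) (hDG : finrank ℝ DG = m)
    (hq : ∀ v ∈ D, (∀ j, ⟪q j, v⟫ = 0) → v = 0) (ν ζ : Fin (m + 1) → ℝ) (hν : ν ≠ 0)
    (hν1 : ∀ v ∈ DG, ∑ j, ν j * ⟪q j, v⟫ = 0) (hζ : ∀ v ∈ DG, ∑ j, ζ j * ⟪q j, v⟫ = 0) :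
    ∃ s : ℝ, ζ = s • ν := by
  have hbij := adj_bijective q D hD hq
  set N := adj q D ν with hN
  set M := adj q D ζ with hM
  have hN0 : N ≠ 0 := by
    intro h
    apply hν
    apply hbij.1
    rw [← hN, h, map_zero]
  have hNN : ⟪(N : E), (N : E)⟫ ≠ 0 := by
    intro h
    apply hN0
    exact Subtype.ext (inner_self_eq_zero.1 h)
  refine ⟨⟪(N : E), (M : E)⟫ / ⟪(N : E), (N : E)⟫, ?_⟩
  set s := ⟪(N : E), (M : E)⟫ / ⟪(N : E), (N : E)⟫ with hs
  have h1 : ⟪(N : E), ((M - s • N : D) : E)⟫ = 0 := by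
    rw [Submodule.coe_sub, Submodule.coe_smul, inner_sub_right, real_inner_smul_right, hs,
      div_mul_cancel₀ _ hNN, sub_self]
  have h2 : ((M - s • N : D) : E) ∈ DG :=
    mem_of_inner_eq_zero hle hD hDG N.2 (fun h => hN0 (Subtype.ext h))
      (fun v hv => by rw [hN, adj_inner q D ν (hle hv)]; exact hν1 v hv) (M - s • N).2 h1
  have h3 : ⟪(M : E), ((M - s • N : D) : E)⟫ = 0 := by
    rw [hM, adj_inner q D ζ (hle h2)]
    exact hζ _ h2
  have h4 : ⟪((M - s • N : D) : E), ((M - s • N : D) : E)⟫ = 0 := by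
    conv_lhs => rw [Submodule.coe_sub, Submodule.coe_smul]
    rw [inner_sub_left, real_inner_smul_left]
    rw [Submodule.coe_sub, Submodule.coe_smul] at h1 h3
    rw [h1, h3]
    ring
  have h5 : M - s • N = 0 := Subtype.ext (inner_self_eq_zero.1 h4)
  apply hbij.1
  rw [map_smul, ← hN, ← hM]
  exact sub_eq_zero.1 h5

/-- A vector in the direction of two different faces killed by the coordinates. -/
lemma exists_separating {m : ℕ} (P : Set E) (F F' : Set E) (hF : Face P F) (hF' : Face P F')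
    (hd : finrank ℝ (vectorSpan ℝ F) = m + 1) (hd' : finrank ℝ (vectorSpan ℝ F') = m + 1)
    (hne : F ≠ F') (q : Fin (m + 1) → E) :
    ∃ z ∈ vectorSpan ℝ (F ∪ F'), z ≠ 0 ∧ ∀ j, ⟪q j, z⟫ = 0 := by
  have hlt : m + 1 < finrank ℝ (vectorSpan ℝ (F ∪ F')) := by
    by_contra hcon
    push Not at hcon
    have h1 : vectorSpan ℝ F = vectorSpan ℝ (F ∪ F') :=
      Submodule.eq_of_le_of_finrank_le (vectorSpan_mono ℝ Set.subset_union_left) (by omega)
    have h2 : vectorSpan ℝ F' = vectorSpan ℝ (F ∪ F') :=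
      Submodule.eq_of_le_of_finrank_le (vectorSpan_mono ℝ Set.subset_union_right) (by omega)
    have h3 : affineSpan ℝ F = affineSpan ℝ (F ∪ F') := by
      obtain ⟨p, hp⟩ := hF.1
      apply AffineSubspace.ext_of_direction_eq
      · rw [direction_affineSpan, direction_affineSpan, h1]
      · exact ⟨p, subset_affineSpan ℝ F hp, subset_affineSpan ℝ _ (Or.inl hp)⟩
    have h4 : affineSpan ℝ F' = affineSpan ℝ (F ∪ F') := by
      obtain ⟨p, hp⟩ := hF'.1
      apply AffineSubspace.ext_of_direction_eq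
      · rw [direction_affineSpan, direction_affineSpan, h2]
      · exact ⟨p, subset_affineSpan ℝ F' hp, subset_affineSpan ℝ _ (Or.inr hp)⟩
    apply hne
    rw [hF.eq_inter, hF'.eq_inter, h3, h4]
  have h1 : LinearMap.ker ((coordL q).toLinearMap.domRestrict (vectorSpan ℝ (F ∪ F'))) ≠ ⊥ :=
    LinearMap.ker_ne_bot_of_finrank_lt (by simpa using hlt)
  obtain ⟨z, hz, hz0⟩ := (Submodule.ne_bot_iff _).1 h1
  refine ⟨z, z.2, fun h => hz0 (Subtype.ext h), fun j => ?_⟩
  have h2 := LinearMap.mem_ker.1 hz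
  exact congrFun h2 j

end Pool.Agent.FaceContents
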