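import Mathlib

/-!
# Balancing handicaps

For every family of weighted lines through weighted points satisfying a Hall type condition
there are integer handicaps for which the weighted multiplicities are balanced.
-/

namespace Pool.Agent.FaceContents

open Finset

variable {ι κ : Type*}

/-- Existence of the threshold of a line. -/
lemma exists_threshold (S : Finset ι) (hS : S.Nonempty) (α : ι → ℤ) (n : ℕ) :
    ∃ t : ℤ, n + 1 ≤ ∑ a ∈ S, (t + α a).toNat ∧
      ∀ s : ℤ, n + 1 ≤ ∑ a ∈ S, (s + α a).toNat → t ≤ s := by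
  obtain ⟨a, ha⟩ := hS
  have hbdd : ∃ b : ℤ, ∀ z : ℤ, n + 1 ≤ ∑ a ∈ S, (z + α a).toNat → b ≤ z := by
    refine ⟨-∑ a ∈ S, |α a|, fun z hz => ?_⟩
    by_contra hcon
    push Not at hcon
    have h0 : ∑ a ∈ S, (z + α a).toNat = 0 := by
      apply Finset.sum_eq_zero
      intro c hc
      have h1 : |α c| ≤ ∑ a ∈ S, |α a| :=
        Finset.single_le_sum (f := fun a => |α a|) (fun _ _ => abs_nonneg _) hc
      have h2 := le_abs_self (α c)
      omega
    omega
  have hin : ∃ z : ℤ, n + 1 ≤ ∑ a ∈ S, (z + α a).toNat := by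
    refine ⟨n + 1 - α a, ?_⟩
    have h1 : ((n : ℤ) + 1 - α a + α a).toNat ≤ ∑ c ∈ S, ((n : ℤ) + 1 - α a + α c).toNat :=
      Finset.single_le_sum (f := fun c => ((n : ℤ) + 1 - α a + α c).toNat)
        (fun _ _ => Nat.zero_le _) ha
    have h2 : ((n : ℤ) + 1 - α a + α a).toNat = n + 1 := by
      have : (n : ℤ) + 1 - α a + α a = ((n + 1 : ℕ) : ℤ) := by push_cast; ring
      rw [this, Int.toNat_natCast]
    omega
  obtain ⟨t, ht1, ht2⟩ := Int.exists_least_of_bdd hbdd hin
  exact ⟨t, ht1, fun s hs => ht2 s hs⟩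

open Classical in
/-- The threshold of a line with point set `S`: the least `t` with
`∑ (t + α a)₊ ≥ n + 1`. -/
noncomputable def thr (S : Finset ι) (α : ι → ℤ) (n : ℕ) : ℤ :=
  if hS : S.Nonempty then Classical.choose (exists_threshold S hS α n) else 0

lemma thr_spec {S : Finset ι} (hS : S.Nonempty) (α : ι → ℤ) (n : ℕ) :
    n + 1 ≤ ∑ a ∈ S, (thr S α n + α a).toNat := by
  unfold thr
  rw [dif_pos hS]
  exact (Classical.choose_spec (exists_threshold S hS α n)).1

lemma thr_min {S : Finset ι} (hS : S.Nonempty) (α : ι → ℤ) (n : ℕ) (s : ℤ)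
    (h : n + 1 ≤ ∑ a ∈ S, (s + α a).toNat) : thr S α n ≤ s := by
  unfold thr
  rw [dif_pos hS]
  exact (Classical.choose_spec (exists_threshold S hS α n)).2 s h

lemma thr_upper {S : Finset ι} (hS : S.Nonempty) (α : ι → ℤ) (n : ℕ) :
    ∑ a ∈ S, (thr S α n + α a).toNat ≤ n + S.card := by
  by_contra hcon
  push Not at hcon
  have h1 : thr S α n ≤ thr S α n - 1 := by
    apply thr_min hS
    have h2 : ∑ a ∈ S, (thr S α n + α a).toNat ≤ ∑ a ∈ S, ((thr S α n - 1 + α a).toNat + 1) :=
      Finset.sum_le_sum fun a _ => by omega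
    rw [Finset.sum_add_distrib, Finset.sum_const, smul_eq_mul, mul_one] at h2
    omega
  omega

lemma thr_mono {S : Finset ι} (hS : S.Nonempty) {α α' : ι → ℤ} (n : ℕ)
    (h : ∀ a ∈ S, α' a ≤ α a) : thr S α n ≤ thr S α' n := by
  apply thr_min hS
  refine (thr_spec hS α' n).trans (Finset.sum_le_sum fun a ha => ?_)
  have := h a ha
  omega

lemma thr_gap {S : Finset ι} (α : ι → ℤ) (n : ℕ) {a c : ι} (hc : c ∈ S)
    (h : α a + n + 1 ≤ α c) : (thr S α n + α a).toNat = 0 := by
  have h1 : thr S α n ≤ n + 1 - α c := by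
    apply thr_min ⟨c, hc⟩
    have h2 : ((n : ℤ) + 1 - α c + α c).toNat ≤ ∑ a ∈ S, ((n : ℤ) + 1 - α c + α a).toNat :=
      Finset.single_le_sum (f := fun a => ((n : ℤ) + 1 - α c + α a).toNat)
        (fun _ _ => Nat.zero_le _) hc
    have h3 : ((n : ℤ) + 1 - α c + α c).toNat = n + 1 := by
      have : (n : ℤ) + 1 - α c + α c = ((n + 1 : ℕ) : ℤ) := by push_cast; ring
      rw [this, Int.toNat_natCast]
    omega
  omega

lemma exists_stable (f : ℕ → ℕ) (hf : Monotone f) (B : ℕ) (hB : ∀ i, f i ≤ B) :
    ∃ i ≤ B, f i = f (i + 1) := by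
  by_contra hcon
  push Not at hcon
  have h1 : ∀ i ≤ B + 1, i ≤ f i := by
    intro i
    induction i with
    | zero => intro _; exact Nat.zero_le _
    | succ i ih =>
      intro hi
      have h2 := ih (by omega)
      have h3 := hcon i (by omega)
      have h4 := hf (Nat.le_succ i)
      simp only [Nat.succ_eq_add_one] at h4
      omega
  have := h1 (B + 1) le_rfl
  have := hB (B + 1)
  omega

section
open Classical

/-- The points of `X` on the line `L`. -/
noncomputable def ptsOn (X : Finset ι) (inc : ι → κ → Prop) (L : κ) : Finset ι :=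
  X.filter (fun a => inc a L)

/-- Total weight of the lines touching `Y`. -/
noncomputable def wt (Ls : Finset κ) (inc : ι → κ → Prop) (w : κ → ℝ) (Y : Finset ι) : ℝ :=
  ∑ L ∈ Ls.filter (fun L => ∃ a ∈ Y, inc a L), w L

/-- The multiplicity `b` of a point `a` on the line `L`. -/
noncomputable def mult (X : Finset ι) (inc : ι → κ → Prop) (n : ℕ) (α : ι → ℤ) (L : κ) (a : ι) :
    ℕ := (thr (ptsOn X inc L) α n + α a).toNat

/-- The weighted sum of multiplicities at a point. -/
noncomputable def load (X : Finset ι) (Ls : Finset κ) (inc : ι → κ → Prop) (w : κ → ℝ) (n : ℕ)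
    (α : ι → ℤ) (a : ι) : ℝ :=
  ∑ L ∈ Ls.filter (fun L => inc a L), w L * mult X inc n α L a

lemma mem_ptsOn {X : Finset ι} {inc : ι → κ → Prop} {L : κ} {a : ι} :
    a ∈ ptsOn X inc L ↔ a ∈ X ∧ inc a L := by
  simp [ptsOn]

/-- **Balancing lemma.** -/
theorem balance (X : Finset ι) (hX : X.Nonempty) (Ls : Finset κ) (inc : ι → κ → Prop)
    (w : κ → ℝ) (hw : ∀ L ∈ Ls, 0 ≤ w L) (v : ι → ℝ) (hv : ∀ a ∈ X, 0 < v a)
    (hW : 0 < wt Ls inc w X)
    (hall : ∀ Y ⊆ X, Y ≠ X →
      (∑ a ∈ Y, v a) * wt Ls inc w X ≤ wt Ls inc w Y * ∑ a ∈ X, v a)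
    (ε : ℝ) (hε : 0 < ε) :
    ∃ N₀ : ℕ, ∀ n ≥ N₀, ∃ α : ι → ℤ, ∀ a ∈ X,
      load X Ls inc w n α a ≤ (1 + ε) * n * wt Ls inc w X / (∑ a ∈ X, v a) * v a := by
  set W := wt Ls inc w X with hWdef
  set T := ∑ a ∈ X, v a with hTdef
  have hT : 0 < T := Finset.sum_pos hv hX
  -- choice of N₀
  obtain ⟨N₀, hN₀⟩ : ∃ N₀ : ℕ, ∀ a ∈ X, 2 * X.card * T < ε * N₀ * v a := by
    have h1 : ∀ a ∈ X, ∃ N : ℕ, 2 * X.card * T < ε * N * v a := by
      intro a ha
      obtain ⟨N, hN⟩ := exists_nat_gt (2 * X.card * T / (ε * v a))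
      refine ⟨N, ?_⟩
      have h2 : 0 < ε * v a := mul_pos hε (hv a ha)
      rw [div_lt_iff₀ h2] at hN
      linarith
    choose! N hN using h1
    refine ⟨∑ a ∈ X, N a, fun a ha => ?_⟩
    refine (hN a ha).trans_le ?_
    have h2 : (N a : ℝ) ≤ ((∑ a ∈ X, N a : ℕ) : ℝ) := by
      exact_mod_cast Finset.single_le_sum (f := N) (fun _ _ => Nat.zero_le _) ha
    have h3 := hv a ha
    gcongr
  refine ⟨N₀, fun n hn => ?_⟩
  by_contra hcon
  push Not at hcon
  set K := (1 + ε) * n * W / T with hK
  -- the descent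
  have hdesc : ∀ N : ℕ, ∃ α : ι → ℤ, (∀ a ∈ X, α a ≤ 0 ∧
      (α a < 0 → K * v a - W ≤ load X Ls inc w n α a)) ∧ ∑ a ∈ X, (-α a) = N := by
    intro N
    induction N with
    | zero =>
      refine ⟨fun _ => 0, fun a _ => ⟨le_rfl, fun h => absurd h (lt_irrefl _)⟩, by simp⟩
    | succ N ih =>
      obtain ⟨α, hα, hsum⟩ := ih
      obtain ⟨a, ha, hlt⟩ := hcon α
      refine ⟨Function.update α a (α a - 1), ?_, ?_⟩
      · intro c hc
        have hle : ∀ d, Function.update α a (α a - 1) d ≤ α d := by
          intro d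
          by_cases hd : d = a
          · subst hd; simp
          · simp [hd]
        by_cases hca : c = a
        · subst hca
          refine ⟨?_, fun _ => ?_⟩
          · simp only [Function.update_self]
            have := (hα c hc).1
            omega
          · have h1 : load X Ls inc w n α c - W ≤
                load X Ls inc w n (Function.update α c (α c - 1)) c := by
              have h2 : ∑ L ∈ Ls.filter (fun L => inc c L), w L ≤ W := by
                rw [hWdef]
                unfold wt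
                apply Finset.sum_le_sum_of_subset_of_nonneg
                · intro L hL
                  rw [Finset.mem_filter] at hL ⊢
                  exact ⟨hL.1, c, hc, hL.2⟩
                · intro L hL _
                  exact hw L (Finset.mem_filter.1 hL).1
              have h3 : load X Ls inc w n α c - ∑ L ∈ Ls.filter (fun L => inc c L), w L ≤
                  load X Ls inc w n (Function.update α c (α c - 1)) c := by
                unfold load
                rw [← Finset.sum_sub_distrib]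
                apply Finset.sum_le_sum
                intro L hL
                rw [Finset.mem_filter] at hL
                have hwL := hw L hL.1
                have hmem : c ∈ ptsOn X inc L := mem_ptsOn.2 ⟨hc, hL.2⟩
                have h4 := thr_mono ⟨c, hmem⟩ n (fun d _ => hle d)
                  (S := ptsOn X inc L)
                have h5 : mult X inc n α L c ≤
                    mult X inc n (Function.update α c (α c - 1)) L c + 1 := by
                  unfold mult
                  simp only [Function.update_self]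
                  omega
                have h6 : (mult X inc n α L c : ℝ) ≤
                    (mult X inc n (Function.update α c (α c - 1)) L c : ℝ) + 1 := by
                  exact_mod_cast h5
                nlinarith
              linarith
            linarith
        · have hcα : Function.update α a (α a - 1) c = α c := by simp [hca]
          refine ⟨by rw [hcα]; exact (hα c hc).1, fun hneg => ?_⟩
          rw [hcα] at hneg
          refine ((hα c hc).2 hneg).trans ?_
          unfold load
          apply Finset.sum_le_sum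
          intro L hL
          rw [Finset.mem_filter] at hL
          have hwL := hw L hL.1
          have hmem : c ∈ ptsOn X inc L := mem_ptsOn.2 ⟨hc, hL.2⟩
          have h4 := thr_mono ⟨c, hmem⟩ n (fun d _ => hle d)
                  (S := ptsOn X inc L)
          have h5 : mult X inc n α L c ≤ mult X inc n (Function.update α a (α a - 1)) L c := by
            unfold mult
            rw [hcα]
            omega
          have h6 : (mult X inc n α L c : ℝ) ≤
              (mult X inc n (Function.update α a (α a - 1)) L c : ℝ) := by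
            exact_mod_cast h5
          gcongr
      · have h1 : ∑ c ∈ X, (-(Function.update α a (α a - 1)) c) =
            ∑ c ∈ X, (-α c + if c = a then 1 else 0) := by
          refine Finset.sum_congr rfl fun c _ => ?_
          by_cases hca : c = a
          · subst hca; simp; ring
          · simp [hca]
        rw [h1, Finset.sum_add_distrib, hsum]
        simp [ha]
  -- a state with a very negative handicap
  obtain ⟨α, hα, hsum⟩ := hdesc (X.card * ((X.card + 1) * (n + 1)) + 1)
  obtain ⟨a₁, ha₁, hbig⟩ : ∃ a ∈ X, ((X.card + 1) * (n + 1) : ℤ) < -α a := by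
    by_contra hno
    push Not at hno
    have h1 : ∑ a ∈ X, (-α a) ≤ ∑ a ∈ X, ((X.card + 1) * (n + 1) : ℤ) :=
      Finset.sum_le_sum hno
    rw [hsum, Finset.sum_const, nsmul_eq_mul] at h1
    push_cast at h1
    linarith
  -- the gap
  let f : ℕ → ℕ := fun i => (X.filter (fun c => -α c ≤ (i : ℤ) * (n + 1))).card
  have hsub : ∀ i j : ℕ, i ≤ j → X.filter (fun c => -α c ≤ (i : ℤ) * (n + 1)) ⊆
      X.filter (fun c => -α c ≤ (j : ℤ) * (n + 1)) := by
    intro i j hij c hc
    rw [Finset.mem_filter] at hc ⊢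
    refine ⟨hc.1, hc.2.trans ?_⟩
    have : (i : ℤ) ≤ j := by exact_mod_cast hij
    gcongr
  have hmono : Monotone f := fun i j hij => Finset.card_le_card (hsub i j hij)
  obtain ⟨i, hi, hfi⟩ := exists_stable f hmono X.card
    (fun i => Finset.card_le_card (Finset.filter_subset _ _))
  set Y := X.filter (fun c => -α c ≤ (i : ℤ) * (n + 1)) with hY
  have hYeq : Y = X.filter (fun c => -α c ≤ ((i + 1 : ℕ) : ℤ) * (n + 1)) :=
    Finset.eq_of_subset_of_card_le (hsub i (i + 1) (Nat.le_succ i)) (le_of_eq hfi.symm)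
  have hYX : Y ⊆ X := Finset.filter_subset _ _
  have ha₁Y : a₁ ∉ Y := by
    rw [hYeq, Finset.mem_filter]
    rintro ⟨-, h⟩
    have : ((i + 1 : ℕ) : ℤ) * (n + 1) ≤ (X.card + 1) * (n + 1) := by
      have : ((i + 1 : ℕ) : ℤ) ≤ X.card + 1 := by push_cast; omega
      gcongr
    linarith
  have hYne : Y ≠ X := fun h => ha₁Y (h ▸ ha₁)
  have hHall := hall Y hYX hYne
  -- lower bound
  have hneg : ∀ a ∈ X \ Y, α a < 0 := by
    intro a ha
    rw [Finset.mem_sdiff] at ha
    by_contra h
    push Not at h
    apply ha.2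
    rw [hY, Finset.mem_filter]
    refine ⟨ha.1, ?_⟩
    have : (0 : ℤ) ≤ (i : ℤ) * (n + 1) := by positivity
    linarith
  have hlow : K * (T - ∑ a ∈ Y, v a) - X.card * W ≤ ∑ a ∈ X \ Y, load X Ls inc w n α a := by
    have h1 : ∑ a ∈ X \ Y, (K * v a - W) ≤ ∑ a ∈ X \ Y, load X Ls inc w n α a :=
      Finset.sum_le_sum fun a ha => (hα a (Finset.mem_sdiff.1 ha).1).2 (hneg a ha)
    refine le_trans ?_ h1
    rw [Finset.sum_sub_distrib, ← Finset.mul_sum, Finset.sum_const, nsmul_eq_mul]
    have h2 : ∑ a ∈ X \ Y, v a = T - ∑ a ∈ Y, v a := by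
      rw [hTdef, ← Finset.sum_sdiff hYX]; ring
    rw [h2]
    have h3 : (((X \ Y).card : ℕ) : ℝ) ≤ X.card := by
      exact_mod_cast Finset.card_le_card Finset.sdiff_subset
    have h4 : (((X \ Y).card : ℕ) : ℝ) * W ≤ X.card * W := by gcongr
    linarith
  -- upper bound
  have hup : ∑ a ∈ X \ Y, load X Ls inc w n α a ≤ (W - wt Ls inc w Y) * (n + X.card) := by
    have h1 : ∑ a ∈ X \ Y, load X Ls inc w n α a =
        ∑ L ∈ Ls, w L * ∑ a ∈ (X \ Y).filter (fun a => inc a L), (mult X inc n α L a : ℝ) := by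
      unfold load
      simp_rw [Finset.sum_filter, Finset.mul_sum]
      rw [Finset.sum_comm]
      refine Finset.sum_congr rfl fun L _ => Finset.sum_congr rfl fun a _ => ?_
      by_cases h : inc a L <;> simp [h]
    rw [h1]
    have h2 : W - wt Ls inc w Y =
        ∑ L ∈ Ls, (if (∃ a ∈ X, inc a L) ∧ ¬ (∃ a ∈ Y, inc a L) then w L else 0) := by
      rw [hWdef]
      unfold wt
      rw [Finset.sum_filter, Finset.sum_filter, ← Finset.sum_sub_distrib]
      refine Finset.sum_congr rfl fun L _ => ?_
      by_cases h3 : ∃ a ∈ Y, inc a L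
      · have h4 : ∃ a ∈ X, inc a L := by
          obtain ⟨a, ha, h⟩ := h3
          exact ⟨a, hYX ha, h⟩
        simp [h3, h4]
      · simp [h3]
    rw [h2, Finset.sum_mul]
    apply Finset.sum_le_sum
    intro L hL
    have hwL := hw L hL
    by_cases h3 : ∃ a ∈ Y, inc a L
    · -- the line touches `Y`: no contribution
      obtain ⟨c, hcY, hcL⟩ := h3
      have h4 : ∑ a ∈ (X \ Y).filter (fun a => inc a L), (mult X inc n α L a : ℝ) = 0 := by
        apply Finset.sum_eq_zero
        intro a ha
        rw [Finset.mem_filter, Finset.mem_sdiff] at ha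
        have h5 : mult X inc n α L a = 0 := by
          apply thr_gap α n (mem_ptsOn.2 ⟨hYX hcY, hcL⟩)
          have h6 : -α c ≤ (i : ℤ) * (n + 1) := (Finset.mem_filter.1 hcY).2
          have h7 : ¬ (-α a ≤ ((i + 1 : ℕ) : ℤ) * (n + 1)) := by
            intro h
            apply ha.1.2
            rw [hYeq, Finset.mem_filter]
            exact ⟨ha.1.1, h⟩
          push_cast at h7
          nlinarith
        rw [h5]; simp
      rw [h4]
      have h5 : ¬ ((∃ a ∈ X, inc a L) ∧ ¬ (∃ a ∈ Y, inc a L)) := by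
        rintro ⟨-, h⟩
        exact h ⟨c, hcY, hcL⟩
      rw [if_neg h5]
      simp
    · by_cases h4 : ∃ a ∈ X, inc a L
      · rw [if_pos ⟨h4, h3⟩]
        have h5 : (ptsOn X inc L).Nonempty := by
          obtain ⟨a, ha, h⟩ := h4
          exact ⟨a, mem_ptsOn.2 ⟨ha, h⟩⟩
        have h6 := thr_upper h5 α n
        have h7 : ∑ a ∈ (X \ Y).filter (fun a => inc a L), mult X inc n α L a ≤ n + X.card := by
          calc ∑ a ∈ (X \ Y).filter (fun a => inc a L), mult X inc n α L a
              ≤ ∑ a ∈ ptsOn X inc L, mult X inc n α L a := by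
                apply Finset.sum_le_sum_of_subset
                intro a ha
                rw [Finset.mem_filter, Finset.mem_sdiff] at ha
                exact mem_ptsOn.2 ⟨ha.1.1, ha.2⟩
            _ ≤ n + (ptsOn X inc L).card := h6
            _ ≤ n + X.card := by
                have : (ptsOn X inc L).card ≤ X.card := Finset.card_le_card (Finset.filter_subset _ _)
                omega
        have h8 : ∑ a ∈ (X \ Y).filter (fun a => inc a L), (mult X inc n α L a : ℝ) ≤
            n + X.card := by exact_mod_cast h7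
        gcongr
      · have h5 : (X \ Y).filter (fun a => inc a L) = ∅ := by
          apply Finset.filter_false_of_mem
          intro a ha h
          exact h4 ⟨a, (Finset.mem_sdiff.1 ha).1, h⟩
        rw [h5, if_neg (fun h => h4 h.1)]
        simp
  -- contradiction
  have hTY : v a₁ ≤ T - ∑ a ∈ Y, v a := by
    have h2 : ∑ a ∈ X \ Y, v a = T - ∑ a ∈ Y, v a := by
      rw [hTdef, ← Finset.sum_sdiff hYX]; ring
    rw [← h2]
    exact Finset.single_le_sum (f := v) (fun a ha => (hv a (Finset.mem_sdiff.1 ha).1).le)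
      (Finset.mem_sdiff.2 ⟨ha₁, ha₁Y⟩)
  have hWY : (W - wt Ls inc w Y) * T ≤ W * (T - ∑ a ∈ Y, v a) := by nlinarith
  have hWY0 : 0 ≤ wt Ls inc w Y := Finset.sum_nonneg fun L hL => hw L (Finset.mem_filter.1 hL).1
  have hfin : K * (T - ∑ a ∈ Y, v a) - X.card * W ≤ (W - wt Ls inc w Y) * (n + X.card) :=
    hlow.trans hup
  have h1 : K * T = (1 + ε) * n * W := by rw [hK]; field_simp
  have h2 : (W - wt Ls inc w Y) * X.card ≤ W * X.card := by
    have : (0 : ℝ) ≤ X.card := by positivity
    nlinarith
  -- multiply by T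
  have h3 : (K * (T - ∑ a ∈ Y, v a) - X.card * W) * T ≤
      ((W - wt Ls inc w Y) * (n + X.card)) * T := by gcongr
  have h4 : ((W - wt Ls inc w Y) * (n + X.card)) * T ≤
      W * (T - ∑ a ∈ Y, v a) * n + W * X.card * T := by
    have h5 : (W - wt Ls inc w Y) * T * n ≤ W * (T - ∑ a ∈ Y, v a) * n := by gcongr
    have h6 : (W - wt Ls inc w Y) * X.card * T ≤ W * X.card * T := by gcongr
    nlinarith
  have h5 : (K * (T - ∑ a ∈ Y, v a) - X.card * W) * T =
      (1 + ε) * n * W * (T - ∑ a ∈ Y, v a) - X.card * W * T := by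
    rw [← h1]; ring
  have h6 : ε * n * (T - ∑ a ∈ Y, v a) * W ≤ 2 * X.card * T * W := by nlinarith
  have h7 : ε * n * (T - ∑ a ∈ Y, v a) ≤ 2 * X.card * T := le_of_mul_le_mul_right h6 hW
  have h8 : ε * N₀ * v a₁ ≤ ε * n * (T - ∑ a ∈ Y, v a) := by
    have h9 : (N₀ : ℝ) ≤ n := by exact_mod_cast hn
    have h10 := hv a₁ ha₁
    gcongr
  have h9 := hN₀ a₁ ha₁
  linarith

end

end Pool.Agent.FaceContents
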