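import Pool.Agent.FaceContents.Counting
import Pool.Agent.FaceContents.Handicap

/-!
# A weighted joints inequality
-/

namespace Pool.Agent.FaceContents

open Finset

variable {ι κ : Type*}

section
open Classical

/-- The `k`-tuples of lines of `Ls` through `a` with linearly independent directions. -/
noncomputable def indepTuples {k : ℕ} (e : κ → Fin k → ℝ) (Ls : Finset κ) (inc : ι → κ → Prop)
    (a : ι) : Finset (Fin k → κ) :=
  (Fintype.piFinset (fun _ => Ls.filter (fun L => inc a L))).filter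
    (fun f => LinearIndependent ℝ (fun i => e (f i)))

lemma mem_indepTuples {k : ℕ} {e : κ → Fin k → ℝ} {Ls : Finset κ} {inc : ι → κ → Prop}
    {a : ι} {f : Fin k → κ} : f ∈ indepTuples e Ls inc a ↔
      (∀ i, f i ∈ Ls ∧ inc a (f i)) ∧ LinearIndependent ℝ (fun i => e (f i)) := by
  simp [indepTuples, Fintype.mem_piFinset]

lemma wt_mono {Ls : Finset κ} {inc : ι → κ → Prop} {w : κ → ℝ} (hw : ∀ L ∈ Ls, 0 ≤ w L)
    {Y X : Finset ι} (h : Y ⊆ X) : wt Ls inc w Y ≤ wt Ls inc w X := by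
  unfold wt
  apply Finset.sum_le_sum_of_subset_of_nonneg
  · intro L hL
    rw [Finset.mem_filter] at hL ⊢
    obtain ⟨h1, a, ha, h2⟩ := hL
    exact ⟨h1, a, h ha, h2⟩
  · intro L hL _
    exact hw L (Finset.mem_filter.1 hL).1

lemma wt_nonneg {Ls : Finset κ} {inc : ι → κ → Prop} {w : κ → ℝ} (hw : ∀ L ∈ Ls, 0 ≤ w L)
    (Y : Finset ι) : 0 ≤ wt Ls inc w Y :=
  Finset.sum_nonneg fun L hL => hw L (Finset.mem_filter.1 hL).1

lemma exists_eps (k : ℕ) (A B : ℝ) (h : A ^ k < B) : ∃ ε > 0, ((1 + ε) * A) ^ k < B := by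
  have hc : Continuous (fun ε : ℝ => ((1 + ε) * A) ^ k) := by fun_prop
  have h0 : ((1 + (0 : ℝ)) * A) ^ k < B := by simpa using h
  have h1 := (hc.continuousAt (x := (0 : ℝ))).eventually_lt
    (continuousAt_const (y := B)) h0
  obtain ⟨δ, hδ, hball⟩ := Metric.eventually_nhds_iff.1 h1
  refine ⟨δ / 2, by positivity, hball ?_⟩
  rw [Real.dist_eq, sub_zero, abs_of_pos (by positivity)]
  linarith

/-- Main step: if Hall's condition holds and all point weights are positive, then the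
weighted joints inequality holds. -/
lemma joints_of_hall {k : ℕ} (hk : 2 ≤ k) (x : ι → Fin k → ℝ) (e : κ → Fin k → ℝ)
    (inc : ι → κ → Prop) (w : κ → ℝ) (Ls : Finset κ) (hw : ∀ L ∈ Ls, 0 ≤ w L)
    (X : Finset ι) (hX : X.Nonempty) (v : ι → ℝ) (hx : Set.InjOn x X) (hv : ∀ a ∈ X, 0 < v a)
    (hline : ∀ a ∈ X, ∀ c ∈ X, ∀ L ∈ Ls, inc a L → inc c L → ∃ s : ℝ, x c = x a + s • e L)
    (hM : ∀ a ∈ X, v a ^ (k - 1) ≤ ∑ f ∈ indepTuples e Ls inc a, ∏ i, w (f i))
    (hW : 0 < wt Ls inc w X)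
    (hall : ∀ Y ⊆ X, Y ≠ X →
      (∑ a ∈ Y, v a) * wt Ls inc w X ≤ wt Ls inc w Y * ∑ a ∈ X, v a) :
    (∑ a ∈ X, v a) ^ (k - 1) ≤ (k * wt Ls inc w X) ^ k := by
  by_contra hcon
  push Not at hcon
  set W := wt Ls inc w X with hWdef
  set T := ∑ a ∈ X, v a with hTdef
  have hT : 0 < T := Finset.sum_pos hv hX
  obtain ⟨ε, hε, hεlt⟩ := exists_eps k (k * W) _ hcon
  obtain ⟨N₀, hN₀⟩ := balance X hX Ls inc w hw v hv hW hall ε hε
  -- choose the degree
  set m := N₀ + 1 with hm
  set n := k * m with hn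
  have hkpos : 0 < k := by omega
  obtain ⟨α, hα⟩ := hN₀ n (by
    have : 1 * m ≤ k * m := Nat.mul_le_mul_right m hkpos
    omega)
  set K := (1 + ε) * n * W / T with hK
  -- choice of the tuples
  have hne : ∀ a ∈ X, (indepTuples e Ls inc a).Nonempty := by
    intro a ha
    by_contra h
    rw [Finset.not_nonempty_iff_eq_empty] at h
    have h1 := hM a ha
    rw [h, Finset.sum_empty] at h1
    have h2 : 0 < v a ^ (k - 1) := pow_pos (hv a ha) _
    linarith
  have hmin : ∀ a ∈ X, ∃ f ∈ indepTuples e Ls inc a, ∀ f' ∈ indepTuples e Ls inc a,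
      ∏ i, mult X inc n α (f i) a ≤ ∏ i, mult X inc n α (f' i) a := fun a ha =>
    Finset.exists_min_image _ _ (hne a ha)
  have : Nonempty (Fin k → κ) := by
    obtain ⟨a, ha⟩ := hX
    exact ⟨(hne a ha).choose⟩
  choose! F hF hFmin using hmin
  -- the counting lemma
  have hcount : (m + 1) ^ k ≤ ∑ a ∈ X, ∏ i, (thr (ptsOn X inc (F a i)) α n + α a).toNat := by
    apply counting X hX x hx (fun a i => e (F a i)) ?_ α (fun a i => ptsOn X inc (F a i))
      (fun a i => thr (ptsOn X inc (F a i)) α n) m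
    · intro a ha i
      exact Finset.filter_subset _ _
    · intro a ha i c hc
      have h1 := (mem_indepTuples.1 (hF a ha)).1 i
      rw [mem_ptsOn] at hc
      exact hline a ha c hc.1 (F a i) h1.1 h1.2 hc.2
    · intro a ha i
      have h1 := (mem_indepTuples.1 (hF a ha)).1 i
      exact thr_spec ⟨a, mem_ptsOn.2 ⟨ha, h1.2⟩⟩ α n
    · intro a ha
      exact (mem_indepTuples.1 (hF a ha)).2
  -- bound of the products
  have hKnn : 0 ≤ K := by positivity
  have hB : ∀ a ∈ X, ((∏ i, (thr (ptsOn X inc (F a i)) α n + α a).toNat : ℕ) : ℝ) ≤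
      K ^ k * v a := by
    intro a ha
    have hva := hv a ha
    set B : ℝ := ((∏ i, (thr (ptsOn X inc (F a i)) α n + α a).toNat : ℕ) : ℝ) with hBdef
    have h1 : load X Ls inc w n α a ^ k =
        ∑ f ∈ Fintype.piFinset (fun _ : Fin k => Ls.filter (fun L => inc a L)),
          ∏ i, (w (f i) * (mult X inc n α (f i) a : ℝ)) := by
      unfold load
      have := Finset.prod_univ_sum (fun _ : Fin k => Ls.filter (fun L => inc a L))
        (fun _ L => w L * (mult X inc n α L a : ℝ))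
      rw [← this, Finset.prod_const, Finset.card_univ, Fintype.card_fin]
    have h2 : (∑ f ∈ indepTuples e Ls inc a, ∏ i, w (f i)) * B ≤ load X Ls inc w n α a ^ k := by
      rw [h1, Finset.sum_mul]
      refine le_trans (Finset.sum_le_sum (g := fun f => ∏ i, (w (f i) *
        (mult X inc n α (f i) a : ℝ))) ?_)
        (Finset.sum_le_sum_of_subset_of_nonneg (Finset.filter_subset _ _) ?_)
      · intro f hf
        rw [Finset.prod_mul_distrib]
        have h3 : 0 ≤ ∏ i, w (f i) :=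
          Finset.prod_nonneg fun i _ => hw _ ((mem_indepTuples.1 hf).1 i).1
        have h4 : B ≤ ∏ i, (mult X inc n α (f i) a : ℝ) := by
          rw [hBdef]
          have := hFmin a ha f hf
          exact_mod_cast this
        gcongr
      · intro f hf _
        rw [Fintype.mem_piFinset] at hf
        apply Finset.prod_nonneg
        intro i _
        have := hw _ (Finset.mem_filter.1 (hf i)).1
        positivity
    have h3 : load X Ls inc w n α a ^ k ≤ (K * v a) ^ k := by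
      apply pow_le_pow_left₀ _ (hα a ha)
      unfold load
      apply Finset.sum_nonneg
      intro L hL
      have := hw _ (Finset.mem_filter.1 hL).1
      positivity
    have hBnn : 0 ≤ B := by positivity
    have h4 : v a ^ (k - 1) * B ≤ (K * v a) ^ k :=
      (mul_le_mul_of_nonneg_right (hM a ha) hBnn).trans (h2.trans h3)
    have h5 : (K * v a) ^ k = v a ^ (k - 1) * (K ^ k * v a) := by
      obtain ⟨j, rfl⟩ : ∃ j, k = j + 1 := ⟨k - 1, by omega⟩
      simp only [Nat.add_sub_cancel]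
      ring_nf
    rw [h5] at h4
    exact le_of_mul_le_mul_left h4 (pow_pos hva _)
  have h6 : ((m : ℝ) + 1) ^ k ≤ K ^ k * T := by
    have h7 : (((m + 1) ^ k : ℕ) : ℝ) ≤
        ((∑ a ∈ X, ∏ i, (thr (ptsOn X inc (F a i)) α n + α a).toNat : ℕ) : ℝ) := by
      exact_mod_cast hcount
    rw [Nat.cast_sum] at h7
    have h8 : ∑ a ∈ X, ((∏ i, (thr (ptsOn X inc (F a i)) α n + α a).toNat : ℕ) : ℝ) ≤
        ∑ a ∈ X, K ^ k * v a := Finset.sum_le_sum hB
    rw [← Finset.mul_sum] at h8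
    push_cast at h7 h8
    linarith
  have hmpos : (0 : ℝ) < m := by rw [hm]; push_cast; positivity
  have h7 : (m : ℝ) ^ k ≤ ((m : ℝ) + 1) ^ k := by
    apply pow_le_pow_left₀ hmpos.le; linarith
  have h8 : K ^ k * T * T ^ (k - 1) = (((1 + ε) * (k * W)) ^ k) * (m : ℝ) ^ k := by
    have h9 : K * T = (1 + ε) * (k * W) * m := by
      rw [hK, hn]; push_cast; field_simp
    have h10 : K ^ k * T * T ^ (k - 1) = (K * T) ^ k := by
      obtain ⟨j, rfl⟩ : ∃ j, k = j + 1 := ⟨k - 1, by omega⟩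
      simp only [Nat.add_sub_cancel]
      ring_nf
    rw [h10, h9, mul_pow]
  have h9 : (m : ℝ) ^ k * T ^ (k - 1) ≤ (((1 + ε) * (k * W)) ^ k) * (m : ℝ) ^ k := by
    rw [← h8]
    have : 0 < T ^ (k - 1) := pow_pos hT _
    nlinarith
  have h10 : T ^ (k - 1) ≤ ((1 + ε) * (k * W)) ^ k := by
    have h11 : 0 < (m : ℝ) ^ k := pow_pos hmpos k
    rw [mul_comm] at h9
    exact le_of_mul_le_mul_right h9 h11
  linarith

/-- **Weighted joints inequality.** Points `x a` (`a ∈ X`) with weights `v a ≥ 0`, lines `L ∈ Ls`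
with directions `e L` and weights `w L ≥ 0`. If for every point `v a ^ (k-1)` is
at most the sum, over `k`-tuples of lines through `a` with independent directions, of the
products of weights, then `(∑ v a) ^ (k-1) ≤ (k * ∑ w L) ^ k`. -/
theorem weighted_joints {k : ℕ} (hk : 2 ≤ k) (x : ι → Fin k → ℝ) (e : κ → Fin k → ℝ)
    (inc : ι → κ → Prop) (w : κ → ℝ) (Ls : Finset κ) (hw : ∀ L ∈ Ls, 0 ≤ w L)
    (v : ι → ℝ) (X : Finset ι) (hx : Set.InjOn x X) (hv : ∀ a ∈ X, 0 ≤ v a)
    (hline : ∀ a ∈ X, ∀ c ∈ X, ∀ L ∈ Ls, inc a L → inc c L → ∃ s : ℝ, x c = x a + s • e L)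
    (hM : ∀ a ∈ X, v a ^ (k - 1) ≤ ∑ f ∈ indepTuples e Ls inc a, ∏ i, w (f i)) :
    (∑ a ∈ X, v a) ^ (k - 1) ≤ (k * wt Ls inc w X) ^ k := by
  induction X using Finset.strongInduction with
  | H X IH =>
  have hk1 : k - 1 ≠ 0 := by omega
  have hk0 : k ≠ 0 := by omega
  rcases X.eq_empty_or_nonempty with rfl | hX
  · simp only [Finset.sum_empty, zero_pow hk1]
    have := wt_nonneg (inc := inc) hw (∅ : Finset ι)
    positivity
  by_cases hz : ∃ a ∈ X, v a = 0
  · obtain ⟨a, ha, hva⟩ := hz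
    have hsub : X.erase a ⊆ X := Finset.erase_subset _ _
    have h1 := IH (X.erase a) (Finset.erase_ssubset ha) (hx.mono (by exact_mod_cast hsub))
      (fun c hc => hv c (hsub hc))
      (fun c hc d hd => hline c (hsub hc) d (hsub hd)) (fun c hc => hM c (hsub hc))
    rw [← Finset.add_sum_erase X v ha, hva, zero_add]
    refine h1.trans ?_
    have h2 := wt_mono (inc := inc) hw hsub
    have h3 := wt_nonneg (inc := inc) hw (X.erase a)
    gcongr
  push Not at hz
  have hvpos : ∀ a ∈ X, 0 < v a := fun a ha => lt_of_le_of_ne (hv a ha) (Ne.symm (hz a ha))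
  have hWnn := wt_nonneg (inc := inc) hw X
  have hW : 0 < wt Ls inc w X := by
    obtain ⟨a, ha⟩ := hX
    rcases hWnn.lt_or_eq with h | h
    · exact h
    exfalso
    have h1 : ∀ L ∈ Ls.filter (fun L => ∃ a ∈ X, inc a L), w L = 0 :=
      (Finset.sum_eq_zero_iff_of_nonneg
        (fun L hL => hw L (Finset.mem_filter.1 hL).1)).1 h.symm
    have h2 := hM a ha
    have h3 : ∑ f ∈ indepTuples e Ls inc a, ∏ i, w (f i) = 0 := by
      apply Finset.sum_eq_zero
      intro f hf
      apply Finset.prod_eq_zero (i := ⟨0, by omega⟩) (Finset.mem_univ _)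
      have h4 := (mem_indepTuples.1 hf).1 ⟨0, by omega⟩
      exact h1 _ (Finset.mem_filter.2 ⟨h4.1, a, ha, h4.2⟩)
    rw [h3] at h2
    have := pow_pos (hvpos a ha) (k - 1)
    linarith
  by_contra hcon
  push Not at hcon
  refine absurd (joints_of_hall hk x e inc w Ls hw X hX v hx hvpos hline hM hW ?_)
    (not_le.2 hcon)
  intro Y hYX hYne
  have hYss : Y ⊂ X := lt_of_le_of_ne hYX hYne
  have h1 := IH Y hYss (hx.mono (by exact_mod_cast hYX)) (fun c hc => hv c (hYX hc))
    (fun c hc d hd => hline c (hYX hc) d (hYX hd)) (fun c hc => hM c (hYX hc))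
  set TY := ∑ a ∈ Y, v a with hTY
  set T := ∑ a ∈ X, v a with hT
  set WY := wt Ls inc w Y with hWY
  set W := wt Ls inc w X with hWX
  have hWYW : WY ≤ W := wt_mono hw hYX
  have hWY0 : 0 ≤ WY := wt_nonneg hw Y
  have hTY0 : 0 ≤ TY := Finset.sum_nonneg fun a ha => hv a (hYX ha)
  have hT0 : 0 < T := Finset.sum_pos hvpos hX
  by_contra hlt
  push Not at hlt
  have hWYpos : 0 < WY := by
    rcases hWY0.lt_or_eq with h | h
    · exact h
    exfalso
    rw [← h, mul_zero, zero_pow hk0] at h1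
    have h2 : TY = 0 := by
      by_contra h3
      have h4 : 0 < TY := lt_of_le_of_ne hTY0 (Ne.symm h3)
      have := pow_pos h4 (k - 1)
      linarith
    rw [h2, ← h] at hlt
    simp at hlt
  have h2 : (WY * T) ^ (k - 1) < (TY * W) ^ (k - 1) :=
    pow_lt_pow_left₀ hlt (by positivity) hk1
  rw [mul_pow, mul_pow] at h2
  have h3 : TY ^ (k - 1) * W ^ (k - 1) ≤ (k * WY) ^ k * W ^ (k - 1) := by
    have : 0 ≤ W ^ (k - 1) := by positivity
    nlinarith
  have h4 : WY ^ (k - 1) * (k * W) ^ k < WY ^ (k - 1) * T ^ (k - 1) := by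
    have : 0 < WY ^ (k - 1) := pow_pos hWYpos _
    nlinarith
  have h5 : WY ^ (k - 1) * (k * W) ^ k < (k * WY) ^ k * W ^ (k - 1) := by linarith
  have h6 : WY ^ (k - 1) * (k * W) ^ k = (k ^ k * WY ^ (k - 1) * W ^ (k - 1)) * W := by
    obtain ⟨j, rfl⟩ : ∃ j, k = j + 1 := ⟨k - 1, by omega⟩
    simp only [Nat.add_sub_cancel]
    ring
  have h7 : (k * WY) ^ k * W ^ (k - 1) = ((k : ℝ) ^ k * WY ^ (k - 1) * W ^ (k - 1)) * WY := by
    obtain ⟨j, rfl⟩ : ∃ j, k = j + 1 := ⟨k - 1, by omega⟩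
    simp only [Nat.add_sub_cancel]
    ring
  rw [h6, h7] at h5
  have h8 : 0 < (k : ℝ) ^ k * WY ^ (k - 1) * W ^ (k - 1) := by
    have : (0 : ℝ) < k := by exact_mod_cast (by omega : 0 < k)
    positivity
  have h9 := lt_of_mul_lt_mul_left h5 h8.le
  linarith

end

end Pool.Agent.FaceContents
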