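import Mathlib
import Pool.Agent.FaceContents.Generic
import Pool.Agent.FaceContents.Joints

/-!
# Consecutive face contents of a polytope
-/

namespace Pool.Agent.FaceContents

open Module Set Filter Topology MeasureTheory MeasureTheory.Measure
open scoped ENNReal RealInnerProductSpace

variable {E : Type*} [NormedAddCommGroup E] [InnerProductSpace ℝ E] [FiniteDimensional ℝ E]

/-- A small generic perturbation. -/
lemma exists_perturbation {κ : Type*} {m : ℕ} (X : Finset κ) (Ls : Finset κ)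
    (ξ : κ → Fin (m + 1) → ℝ) (c : κ → ℝ) (ν : κ → Fin (m + 1) → ℝ) (h : κ → ℝ)
    (hdist : ∀ F ∈ X, ∀ F' ∈ X, F ≠ F' → ¬ (ξ F = ξ F' ∧ c F = c F')) :
    ∃ η : Fin (m + 1) → ℝ, (∀ F ∈ X, ∀ F' ∈ X, F ≠ F' → ξ F + c F • η ≠ ξ F' + c F' • η) ∧
      ∀ f : Fin (m + 1) → κ, (∀ i, f i ∈ Ls) → LinearIndependent ℝ (fun i => ν (f i)) →
        LinearIndependent ℝ (fun i => ν (f i) + h (f i) • η) := by
  classical
  have h1 : ∀ᶠ η : Fin (m + 1) → ℝ in 𝓝[≠] 0, ∀ F ∈ X, ∀ F' ∈ X, F ≠ F' →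
      ξ F + c F • η ≠ ξ F' + c F' • η := by
    rw [Filter.eventually_all_finset]
    intro F hF
    rw [Filter.eventually_all_finset]
    intro F' hF'
    by_cases hne : F = F'
    · exact Filter.Eventually.of_forall fun η h => absurd hne h
    by_cases hc : c F = c F'
    · refine Filter.Eventually.of_forall fun η _ heq => ?_
      rw [hc] at heq
      exact hdist F hF F' hF' hne ⟨add_right_cancel heq, hc⟩
    · have hc' : c F - c F' ≠ 0 := sub_ne_zero.2 hc
      have h2 : ∀ᶠ η : Fin (m + 1) → ℝ in 𝓝[≠] 0, η ≠ (c F - c F')⁻¹ • (ξ F' - ξ F) := by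
        by_cases h0 : (c F - c F')⁻¹ • (ξ F' - ξ F) = 0
        · rw [h0]
          exact self_mem_nhdsWithin
        · exact nhdsWithin_le_nhds (isOpen_ne.mem_nhds (Ne.symm h0))
      filter_upwards [h2] with η hη _ heq
      apply hη
      have h3 : (c F - c F') • η = ξ F' - ξ F := by
        rw [sub_smul, sub_eq_sub_iff_add_eq_add, add_comm (c F • η), heq]
      rw [← h3, smul_smul, inv_mul_cancel₀ hc', one_smul]
  have h2 : ∀ᶠ η : Fin (m + 1) → ℝ in 𝓝[≠] 0, ∀ f ∈ Fintype.piFinset (fun _ : Fin (m + 1) => Ls),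
      LinearIndependent ℝ (fun i => ν (f i)) →
        LinearIndependent ℝ (fun i => ν (f i) + h (f i) • η) := by
    rw [Filter.eventually_all_finset]
    intro f _
    by_cases hf : LinearIndependent ℝ (fun i => ν (f i))
    · have hcont : Continuous (fun η : Fin (m + 1) → ℝ =>
          (fun i => ν (f i) + h (f i) • η : Fin (m + 1) → Fin (m + 1) → ℝ)) := by
        fun_prop
      have ht := hcont.tendsto 0
      have h3 : ∀ᶠ η : Fin (m + 1) → ℝ in 𝓝 0,
          LinearIndependent ℝ (fun i => ν (f i) + h (f i) • η) := by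
        apply ht.eventually (p := fun g : Fin (m + 1) → Fin (m + 1) → ℝ => LinearIndependent ℝ g)
        apply isOpen_setOfPred_linearIndependent.mem_nhds
        simpa using hf
      filter_upwards [h3.filter_mono nhdsWithin_le_nhds] with η hη _ using hη
    · exact Filter.Eventually.of_forall fun η h => absurd h hf
  have : NeBot (𝓝[≠] (0 : Fin (m + 1) → ℝ)) := Module.punctured_nhds_neBot ℝ _ 0
  obtain ⟨η, hη1, hη2⟩ := (h1.and h2).exists
  exact ⟨η, hη1, fun f hf hl => hη2 f (Fintype.mem_piFinset.2 hf) hl⟩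

section
open Classical

/-- Existence of the generic lifting. -/
theorem exists_config (S : Finset E) (m : ℕ) :
    ∃ (x : Set E → Fin (m + 1) → ℝ) (e : Set E → Fin (m + 1) → ℝ),
      Set.InjOn x (facesFin S (m + 1)) ∧
      (∀ F ∈ facesFin S (m + 1), ∀ F' ∈ facesFin S (m + 1), ∀ G ∈ facesFin S m,
        G ⊆ F → G ⊆ F' → ∃ s : ℝ, x F' = x F + s • e G) ∧
      ∀ F ∈ facesFin S (m + 1), ∃ N : Set E → vectorSpan ℝ F,
        (∀ G ∈ facesFin S m, G ⊆ F → N G ≠ 0 ∧ ∀ v ∈ vectorSpan ℝ G, ⟪(N G : E), v⟫ = 0) ∧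
        ∀ f : Fin (m + 1) → Set E, (∀ i, f i ∈ facesFin S m) →
          LinearIndependent ℝ (fun i => N (f i)) → LinearIndependent ℝ (fun i => e (f i)) := by
  obtain ⟨q, hq⟩ := exists_generic_proj (m + 1)
    (vectorSpan ℝ '' (facesFin S (m + 1) : Set (Set E))) ((Finset.finite_toSet _).image _) (by
      rintro _ ⟨F, hF, rfl⟩
      exact (mem_facesFin.1 (Finset.mem_coe.1 hF)).2.le)
  have hq' : ∀ F ∈ facesFin S (m + 1), ∀ v ∈ vectorSpan ℝ F, (∀ j, ⟪q j, v⟫ = 0) → v = 0 :=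
    fun F hF => hq _ ⟨F, hF, rfl⟩
  have hsep : ∀ F F' : Set E, F ∈ facesFin S (m + 1) ∧ F' ∈ facesFin S (m + 1) ∧ F ≠ F' →
      ∃ z ∈ vectorSpan ℝ (F ∪ F'), z ≠ 0 ∧ ∀ j, ⟪q j, z⟫ = 0 := by
    rintro F F' ⟨hF, hF', hne⟩
    rw [mem_facesFin] at hF hF'
    exact exists_separating _ F F' hF.1 hF'.1 hF.2 hF'.2 hne q
  choose! z hz1 hz2 hz3 using hsep
  obtain ⟨t, ht⟩ := exists_generic ((fun p : Set E × Set E => z p.1 p.2) ''
      {p | p.1 ∈ facesFin S (m + 1) ∧ p.2 ∈ facesFin S (m + 1) ∧ p.1 ≠ p.2})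
    ((((Finset.finite_toSet (facesFin S (m + 1))).prod
      (Finset.finite_toSet (facesFin S (m + 1)))).subset (fun p hp => ⟨hp.1, hp.2.1⟩)).image _) (by
      rintro _ ⟨p, hp, rfl⟩
      exact hz2 p.1 p.2 hp)
  have hlift : ∀ F ∈ facesFin S (m + 1), ∃ (ξ : Fin (m + 1) → ℝ) (c : ℝ),
      ∀ y ∈ F, ⟪t, y⟫ = ∑ j, ξ j * ⟪q j, y⟫ + c := by
    intro F hF
    have hF' := mem_facesFin.1 hF
    exact exists_lift q F hF'.1.1 hF'.2 (hq' F hF) t
  choose! ξ c hξ using hlift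
  have hcon : ∀ G ∈ facesFin S m, ∃ ν : Fin (m + 1) → ℝ, ν ≠ 0 ∧
      ∀ v ∈ vectorSpan ℝ G, ∑ j, ν j * ⟪q j, v⟫ = 0 := by
    intro G hG
    have hG' := mem_facesFin.1 hG
    exact exists_conormal q _ (by rw [hG'.2]; exact Nat.lt_succ_self m)
  choose! ν hν1 hν2 using hcon
  have hpt : ∀ G ∈ facesFin S m, ∃ p : E, p ∈ G := fun G hG => (mem_facesFin.1 hG).1.1
  choose! p hp using hpt
  have hdist : ∀ F ∈ facesFin S (m + 1), ∀ F' ∈ facesFin S (m + 1), F ≠ F' →
      ¬ (ξ F = ξ F' ∧ c F = c F') := by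
    rintro F hF F' hF' hne ⟨h1, h2⟩
    have h3 : ∀ y ∈ F ∪ F', ⟪t, y⟫ = ∑ j, ξ F j * ⟪q j, y⟫ + c F := by
      rintro y (hy | hy)
      · exact hξ F hF y hy
      · rw [h1, h2]
        exact hξ F' hF' y hy
    have h4 := inner_vectorSpan q _ t (ξ F) (c F) h3 (z F F') (hz1 F F' ⟨hF, hF', hne⟩)
    have h5 := hz3 F F' ⟨hF, hF', hne⟩
    simp only [h5, mul_zero, Finset.sum_const_zero] at h4
    exact ht _ ⟨(F, F'), ⟨hF, hF', hne⟩, rfl⟩ h4
  obtain ⟨η, hη1, hη2⟩ := exists_perturbation (facesFin S (m + 1)) (facesFin S m) ξ c ν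
    (fun G => -(∑ j, ν G j * ⟪q j, p G⟫)) hdist
  refine ⟨fun F => ξ F + c F • η, fun G => ν G + (-(∑ j, ν G j * ⟪q j, p G⟫)) • η, ?_, ?_, ?_⟩
  · intro F hF F' hF' heq
    by_contra hne
    exact hη1 F hF F' hF' hne heq
  · intro F hF F' hF' G hG hGF hGF'
    have hF1 := mem_facesFin.1 hF
    have hG1 := mem_facesFin.1 hG
    have hζ : ∀ v ∈ vectorSpan ℝ G, ∑ j, (ξ F' - ξ F) j * ⟪q j, v⟫ = 0 := by
      intro v hv
      have h1 := inner_vectorSpan q F t (ξ F) (c F) (hξ F hF) v (vectorSpan_mono ℝ hGF hv)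
      have h2 := inner_vectorSpan q F' t (ξ F') (c F') (hξ F' hF') v (vectorSpan_mono ℝ hGF' hv)
      simp only [Pi.sub_apply, sub_mul, Finset.sum_sub_distrib]
      linarith
    obtain ⟨s, hs⟩ := conormal_unique q (vectorSpan ℝ F) (vectorSpan ℝ G)
      (vectorSpan_mono ℝ hGF) hF1.2 hG1.2 (hq' F hF) (ν G) (ξ F' - ξ F) (hν1 G hG) (hν2 G hG) hζ
    refine ⟨s, ?_⟩
    have h1 := hξ F hF (p G) (hGF (hp G hG))
    have h2 := hξ F' hF' (p G) (hGF' (hp G hG))
    have h3 : ∑ j, (ξ F' - ξ F) j * ⟪q j, p G⟫ = s * ∑ j, ν G j * ⟪q j, p G⟫ := by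
      rw [hs, Finset.mul_sum]
      refine Finset.sum_congr rfl fun j _ => ?_
      simp only [Pi.smul_apply, smul_eq_mul]
      ring
    simp only [Pi.sub_apply, sub_mul, Finset.sum_sub_distrib] at h3
    have h4 : c F' - c F = s * (-(∑ j, ν G j * ⟪q j, p G⟫)) := by linarith
    have h5 : ξ F' = ξ F + s • ν G := by rw [← hs]; abel
    have h6 : c F' = c F + s * (-(∑ j, ν G j * ⟪q j, p G⟫)) := by linarith
    simp only
    rw [h5, h6, add_smul, smul_add, smul_smul]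
    abel
  · intro F hF
    have hF1 := mem_facesFin.1 hF
    have hbij := adj_bijective q (vectorSpan ℝ F) hF1.2 (hq' F hF)
    refine ⟨fun G => adj q (vectorSpan ℝ F) (ν G), ?_, ?_⟩
    · intro G hG hGF
      refine ⟨fun h => hν1 G hG (hbij.1 (h.trans (map_zero _).symm)), fun v hv => ?_⟩
      rw [adj_inner q _ _ (vectorSpan_mono ℝ hGF hv)]
      exact hν2 G hG v hv
    · intro f hf hl
      exact hη2 f hf (LinearIndependent.of_comp (adj q (vectorSpan ℝ F)) hl)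

variable [MeasurableSpace E] [BorelSpace E]

lemma measure_face_lt_top (S : Finset E) (k : ℕ) (G : Set E) (hG : G ∈ facesFin S k) :
    μHE[k] G < ⊤ := by
  obtain ⟨hG1, hG2⟩ := mem_facesFin.1 hG
  subst hG2
  let u := stdOrthonormalBasis ℝ (vectorSpan ℝ G)
  have huo : Orthonormal ℝ (fun i => (u i : E)) :=
    u.orthonormal.comp_linearIsometry (vectorSpan ℝ G).subtypeₗᵢ
  obtain ⟨p, hp⟩ := hG1.1
  have hchart : ∀ x ∈ G, x = (p - ∑ i, ⟪(u i : E), p⟫ • (u i : E)) +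
      ∑ i, ⟪(u i : E), x⟫ • (u i : E) := by
    intro x hx
    have h1 : x - p ∈ vectorSpan ℝ G := vsub_mem_vectorSpan ℝ hx hp
    have h2 := sum_repr_coe _ u h1
    simp only [inner_sub_right, sub_smul, Finset.sum_sub_distrib] at h2
    rw [sub_add_eq_add_sub, add_sub_assoc, h2]
    abel
  rw [← volume_coordL_eq huo G _ hchart]
  exact (hG1.isCompact.image (coordL _).continuous).measure_lt_top

/-- **Consecutive face contents.** -/
theorem sum_pow_le (S : Finset E) (m : ℕ) (hm : 1 ≤ m) :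
    (∑ F ∈ facesFin S (m + 1), μHE[m + 1] F) ^ m ≤
      (((m + 1 : ℕ) : ℝ≥0∞) * ∑ G ∈ facesFin S m, μHE[m] G) ^ (m + 1) := by
  obtain ⟨x, e, hinj, hline, hN⟩ := exists_config S m
  have hM : ∀ F ∈ facesFin S (m + 1), (μHE[m + 1] F).toReal ^ (m + 1 - 1) ≤
      ∑ f ∈ indepTuples e (facesFin S m) (fun F G => G ⊆ F) F, ∏ i, (μHE[m] (f i)).toReal := by
    intro F hF
    obtain ⟨N, hN1, hN2⟩ := hN F hF
    have h1 := local_bound S m hm F hF N hN1
    have hfin : ∀ f ∈ tuples N ((facesFin S m).filter (fun G => G ⊆ F)) (m + 1),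
        ∏ i, μHE[m] (f i) ≠ ⊤ := by
      intro f hf
      rw [mem_tuples] at hf
      refine ENNReal.prod_ne_top fun i _ => ?_
      exact (measure_face_lt_top S m _ (Finset.mem_filter.1 (hf.1 i)).1).ne
    have h2 := ENNReal.toReal_mono (ENNReal.sum_ne_top.2 hfin) h1
    rw [ENNReal.toReal_pow, ENNReal.toReal_sum hfin] at h2
    rw [Nat.add_sub_cancel]
    refine h2.trans ?_
    simp_rw [ENNReal.toReal_prod]
    apply Finset.sum_le_sum_of_subset_of_nonneg
    · intro f hf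
      rw [mem_tuples] at hf
      rw [mem_indepTuples]
      refine ⟨fun i => Finset.mem_filter.1 (hf.1 i), ?_⟩
      exact hN2 f (fun i => (Finset.mem_filter.1 (hf.1 i)).1) hf.2
    · intro f _ _
      exact Finset.prod_nonneg fun i _ => ENNReal.toReal_nonneg
  have hwj := weighted_joints (k := m + 1) (by omega) x e (fun F G => G ⊆ F)
    (fun G => (μHE[m] G).toReal) (facesFin S m) (fun _ _ => ENNReal.toReal_nonneg)
    (fun F => (μHE[m + 1] F).toReal) (facesFin S (m + 1)) hinj (fun _ _ => ENNReal.toReal_nonneg)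
    hline hM
  have hwt : wt (facesFin S m) (fun F G => G ⊆ F) (fun G => (μHE[m] G).toReal)
      (facesFin S (m + 1)) ≤ ∑ G ∈ facesFin S m, (μHE[m] G).toReal := by
    unfold wt
    apply Finset.sum_le_sum_of_subset_of_nonneg (Finset.filter_subset _ _)
    intro G _ _
    exact ENNReal.toReal_nonneg
  have hwt0 : 0 ≤ wt (facesFin S m) (fun F G => G ⊆ F) (fun G => (μHE[m] G).toReal)
      (facesFin S (m + 1)) := by
    unfold wt
    exact Finset.sum_nonneg fun _ _ => ENNReal.toReal_nonneg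
  rw [Nat.add_sub_cancel] at hwj
  have hfin1 : ∀ F ∈ facesFin S (m + 1), μHE[m + 1] F ≠ ⊤ := fun F hF =>
    (measure_face_lt_top S (m + 1) F hF).ne
  have hfin2 : ∀ F ∈ facesFin S m, μHE[m] F ≠ ⊤ := fun F hF =>
    (measure_face_lt_top S m F hF).ne
  rw [← ENNReal.toReal_le_toReal (ENNReal.pow_ne_top (ENNReal.sum_ne_top.2 hfin1))
    (ENNReal.pow_ne_top (ENNReal.mul_ne_top (ENNReal.natCast_ne_top _)
      (ENNReal.sum_ne_top.2 hfin2))), ENNReal.toReal_pow, ENNReal.toReal_pow, ENNReal.toReal_mul,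
    ENNReal.toReal_sum hfin1, ENNReal.toReal_sum hfin2, ENNReal.toReal_natCast]
  refine hwj.trans ?_
  gcongr

end

end Pool.Agent.FaceContents
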