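import Mathlib

/-!
# Counting lemma for polynomials vanishing at points along lines

Polynomial method with handicaps: a nonzero polynomial cannot satisfy all box conditions.
-/

namespace Pool.Agent.FaceContents

open MvPolynomial

variable {k : ℕ}

/-- The derivative of a polynomial in the direction `v`. -/
noncomputable def dirD (v : Fin k → ℝ) :
    MvPolynomial (Fin k) ℝ →ₗ[ℝ] MvPolynomial (Fin k) ℝ :=
  ∑ j, v j • (pderiv j : Derivation ℝ (MvPolynomial (Fin k) ℝ) (MvPolynomial (Fin k) ℝ)).toLinearMap

lemma dirD_apply (v : Fin k → ℝ) (g : MvPolynomial (Fin k) ℝ) :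
    dirD v g = ∑ j, v j • pderiv j g := by
  simp [dirD]

lemma dirD_zero_left (g : MvPolynomial (Fin k) ℝ) : dirD (0 : Fin k → ℝ) g = 0 := by
  simp [dirD_apply]

lemma dirD_add_left (u v : Fin k → ℝ) (g : MvPolynomial (Fin k) ℝ) :
    dirD (u + v) g = dirD u g + dirD v g := by
  simp [dirD_apply, add_smul, Finset.sum_add_distrib]

lemma dirD_smul_left (c : ℝ) (v : Fin k → ℝ) (g : MvPolynomial (Fin k) ℝ) :
    dirD (c • v) g = c • dirD v g := by
  simp [dirD_apply, Finset.smul_sum, smul_smul]

lemma pderiv_comm' (i j : Fin k) (g : MvPolynomial (Fin k) ℝ) :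
    pderiv i (pderiv j g) = pderiv j (pderiv i g) := by
  ext m
  rw [coeff_pderiv, coeff_pderiv, coeff_pderiv, coeff_pderiv]
  rw [add_right_comm m (Finsupp.single i 1) (Finsupp.single j 1)]
  by_cases h : i = j
  · subst h; rfl
  · simp [Finsupp.add_apply, h, Ne.symm h]
    ring

lemma dirD_comm (u v : Fin k → ℝ) (g : MvPolynomial (Fin k) ℝ) :
    dirD u (dirD v g) = dirD v (dirD u g) := by
  simp only [dirD_apply, map_sum, Derivation.map_smul]
  rw [Finset.sum_comm]
  refine Finset.sum_congr rfl fun i _ => Finset.sum_congr rfl fun j _ => ?_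
  rw [pderiv_comm', smul_comm]

/-- Iterated directional derivative along a list of directions. -/
noncomputable def listD (l : List (Fin k → ℝ)) (g : MvPolynomial (Fin k) ℝ) :
    MvPolynomial (Fin k) ℝ :=
  l.foldr (fun v h => dirD v h) g

@[simp] lemma listD_nil (g : MvPolynomial (Fin k) ℝ) : listD [] g = g := rfl

@[simp] lemma listD_cons (v : Fin k → ℝ) (l : List (Fin k → ℝ)) (g : MvPolynomial (Fin k) ℝ) :
    listD (v :: l) g = dirD v (listD l g) := rfl

lemma listD_append (l₁ l₂ : List (Fin k → ℝ)) (g : MvPolynomial (Fin k) ℝ) :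
    listD (l₁ ++ l₂) g = listD l₁ (listD l₂ g) := by
  simp [listD, List.foldr_append]

lemma listD_perm {l₁ l₂ : List (Fin k → ℝ)} (h : l₁.Perm l₂) (g : MvPolynomial (Fin k) ℝ) :
    listD l₁ g = listD l₂ g := by
  induction h with
  | nil => rfl
  | cons x _ ih => simp [ih]
  | swap x y l => simp [dirD_comm]
  | trans _ _ ih1 ih2 => exact ih1.trans ih2

/-- `listD` as a linear map in the polynomial. -/
lemma listD_add (l : List (Fin k → ℝ)) (g h : MvPolynomial (Fin k) ℝ) :
    listD l (g + h) = listD l g + listD l h := by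
  induction l with
  | nil => rfl
  | cons v l ih => simp [ih]

lemma listD_smul (l : List (Fin k → ℝ)) (c : ℝ) (g : MvPolynomial (Fin k) ℝ) :
    listD l (c • g) = c • listD l g := by
  induction l with
  | nil => rfl
  | cons v l ih => simp [ih]

lemma listD_zero (l : List (Fin k → ℝ)) : listD l (0 : MvPolynomial (Fin k) ℝ) = 0 := by
  induction l with
  | nil => rfl
  | cons v l ih => simp [ih]

/-- `listD l` as a linear map. -/
noncomputable def listDL (l : List (Fin k → ℝ)) :
    MvPolynomial (Fin k) ℝ →ₗ[ℝ] MvPolynomial (Fin k) ℝ where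
  toFun := listD l
  map_add' := listD_add l
  map_smul' := listD_smul l

@[simp] lemma listDL_apply (l : List (Fin k → ℝ)) (g : MvPolynomial (Fin k) ℝ) :
    listDL l g = listD l g := rfl

lemma totalDegree_pderiv_le (j : Fin k) (g : MvPolynomial (Fin k) ℝ) :
    (pderiv j g).totalDegree ≤ g.totalDegree := by
  classical
  unfold MvPolynomial.totalDegree
  apply Finset.sup_le
  intro m hm
  rw [mem_support_iff, coeff_pderiv] at hm
  have h1 : m + Finsupp.single j 1 ∈ g.support := by
    rw [mem_support_iff]
    exact left_ne_zero_of_mul hm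
  refine le_trans ?_ (Finset.le_sup (f := fun s : Fin k →₀ ℕ => s.sum fun _ e => e) h1)
  rw [Finsupp.sum_add_index' (by simp) (by simp)]
  omega

lemma totalDegree_dirD_le (v : Fin k → ℝ) (g : MvPolynomial (Fin k) ℝ) :
    (dirD v g).totalDegree ≤ g.totalDegree := by
  rw [dirD_apply]
  refine (totalDegree_finsetSum _ _).trans ?_
  apply Finset.sup_le
  intro j _
  exact (totalDegree_smul_le _ _).trans (totalDegree_pderiv_le j g)

lemma totalDegree_listD_le (l : List (Fin k → ℝ)) (g : MvPolynomial (Fin k) ℝ) :
    (listD l g).totalDegree ≤ g.totalDegree := by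
  induction l with
  | nil => exact le_rfl
  | cons v l ih => exact (totalDegree_dirD_le v _).trans ih

/-- Restriction of a polynomial to the line `t ↦ x + t e`. -/
noncomputable def lineR (x e : Fin k → ℝ) : MvPolynomial (Fin k) ℝ →ₐ[ℝ] Polynomial ℝ :=
  aeval (fun j => Polynomial.C (x j) + Polynomial.C (e j) * Polynomial.X)

lemma eval_lineR (x e : Fin k → ℝ) (g : MvPolynomial (Fin k) ℝ) (t : ℝ) :
    (lineR x e g).eval t = MvPolynomial.eval (x + t • e) g := by
  induction g using MvPolynomial.induction_on with
  | C a => simp [lineR]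
  | add p q hp hq => simp [hp, hq]
  | mul_X p i hp =>
    rw [map_mul, Polynomial.eval_mul, hp, map_mul]
    have h : lineR x e (X i) = Polynomial.C (x i) + Polynomial.C (e i) * Polynomial.X := by
      simp [lineR]
    rw [h]
    simp only [Polynomial.eval_add, Polynomial.eval_C, Polynomial.eval_mul, Polynomial.eval_X,
      eval_X, Pi.add_apply, Pi.smul_apply, smul_eq_mul]
    ring

lemma derivative_lineR (x e : Fin k → ℝ) (g : MvPolynomial (Fin k) ℝ) :
    Polynomial.derivative (lineR x e g) = lineR x e (dirD e g) := by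
  induction g using MvPolynomial.induction_on with
  | C a => simp [lineR, dirD_apply]
  | add p q hp hq => simp [hp, hq]
  | mul_X p i hp =>
    have h1 : dirD e (p * X i) = dirD e p * X i + p * C (e i) := by
      simp only [dirD_apply, Derivation.leibniz, smul_eq_mul, smul_add, Finset.sum_add_distrib,
        pderiv_X, Finset.sum_mul]
      rw [add_comm]
      congr 1
      · refine Finset.sum_congr rfl fun j _ => ?_
        rw [smul_mul_assoc, mul_comm (X i)]
      · rw [Finset.sum_eq_single i]
        · simp [MvPolynomial.smul_eq_C_mul, mul_comm]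
        · intro j _ hj
          simp [hj]
        · simp
    rw [h1, map_mul, Polynomial.derivative_mul, hp, map_add, map_mul, map_mul]
    simp [lineR]

lemma iterate_derivative_lineR (x e : Fin k → ℝ) (g : MvPolynomial (Fin k) ℝ) (m : ℕ) :
    Polynomial.derivative^[m] (lineR x e g) = lineR x e (listD (List.replicate m e) g) := by
  induction m with
  | zero => simp
  | succ m ih =>
    rw [Function.iterate_succ_apply', ih, derivative_lineR, List.replicate_succ, listD_cons]

lemma natDegree_lineR_le (x e : Fin k → ℝ) (g : MvPolynomial (Fin k) ℝ) {n : ℕ}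
    (hg : g.totalDegree ≤ n) : (lineR x e g).natDegree ≤ n := by
  have h := aeval_natDegree_le g hg
    (fun j => Polynomial.C (x j) + Polynomial.C (e j) * Polynomial.X) (n := 1) (by
      intro i
      refine (Polynomial.natDegree_add_le _ _).trans ?_
      simp only [Polynomial.natDegree_C, zero_max]
      refine (Polynomial.natDegree_C_mul_le _ _).trans ?_
      simp)
  rw [mul_one] at h
  exact h

/-- A univariate polynomial of degree at most `n` with more than `n` zeros, counted with
multiplicity, vanishes. -/
lemma eq_zero_of_many_zeros {ι : Type*} (p : Polynomial ℝ) (n : ℕ) (hp : p.natDegree ≤ n)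
    (S : Finset ι) (s : ι → ℝ) (hs : Set.InjOn s S) (b : ι → ℕ) (hb : n + 1 ≤ ∑ c ∈ S, b c)
    (hz : ∀ c ∈ S, ∀ m < b c, (Polynomial.derivative^[m] p).eval (s c) = 0) : p = 0 := by
  classical
  by_contra hp0
  have h1 : ∀ c ∈ S, b c ≤ p.rootMultiplicity (s c) := by
    intro c hc
    rcases Nat.eq_zero_or_pos (b c) with h | h
    · omega
    · have := Polynomial.lt_rootMultiplicity_of_isRoot_iterate_derivative (p := p) (t := s c)
        (n := b c - 1) hp0 (fun m hm => hz c hc m (by omega))
      omega
  have h2 : ∑ c ∈ S, p.rootMultiplicity (s c) = ∑ r ∈ S.image s, p.rootMultiplicity r := by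
    rw [Finset.sum_image hs]
  have h3 : ∑ r ∈ S.image s, p.rootMultiplicity r ≤ p.roots.card := by
    have : ∑ r ∈ S.image s, p.rootMultiplicity r = ∑ r ∈ S.image s, p.roots.count r := by
      refine Finset.sum_congr rfl fun r _ => ?_
      rw [Polynomial.count_roots]
    rw [this]
    have h4 : ∑ r ∈ S.image s, p.roots.count r ≤
        ∑ r ∈ S.image s ∪ p.roots.toFinset, p.roots.count r :=
      Finset.sum_le_sum_of_subset Finset.subset_union_left
    refine h4.trans (le_of_eq ?_)
    exact Multiset.sum_count_eq_card (fun a ha => Finset.mem_union_right _ (by simpa using ha))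
  have h5 : p.roots.card ≤ p.natDegree := Polynomial.card_roots' p
  have h6 : ∑ c ∈ S, b c ≤ ∑ c ∈ S, p.rootMultiplicity (s c) := Finset.sum_le_sum h1
  omega

end Pool.Agent.FaceContents
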